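import Pool.Agent.H56.Auto.Four

set_option autoImplicit false
set_option linter.unusedSectionVars false

open Finset ComplexConjugate

namespace Pool.Agent.H56.Auto

variable {N : ℕ} [NeZero N]

theorem sq_diff_le (a b : ℂ) : ‖a‖ ^ 2 - ‖b‖ ^ 2 ≤ ‖a - b‖ * (‖a‖ + ‖b‖) := by
  have h := norm_sub_norm_le a b
  have h2 : 0 ≤ ‖a‖ + ‖b‖ := by positivity
  nlinarith [mul_le_mul_of_nonneg_right h h2]

/-- two functions at distance `q` in `ℓ²` have nearly the same mass on every set -/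
theorem mass_le (u v : ZMod N × ZMod N → ℂ) {q M : ℝ} (hq : 0 ≤ q) (hM : 0 ≤ M)
    (h : ∑ ξ, ‖u ξ - v ξ‖ ^ 2 ≤ q ^ 2) (hu : ∑ ξ, ‖u ξ‖ ^ 2 ≤ M ^ 2)
    (hv : ∑ ξ, ‖v ξ‖ ^ 2 ≤ M ^ 2) (Y : Finset (ZMod N × ZMod N)) :
    ∑ ξ ∈ Y, ‖u ξ‖ ^ 2 ≤ ∑ ξ ∈ Y, ‖v ξ‖ ^ 2 + 2 * q * M := by
  have h1 : ∑ ξ ∈ Y, ‖u ξ‖ ^ 2 - ∑ ξ ∈ Y, ‖v ξ‖ ^ 2 ≤
      ∑ ξ ∈ Y, ‖u ξ - v ξ‖ * (‖u ξ‖ + ‖v ξ‖) := by
    rw [← Finset.sum_sub_distrib]
    exact Finset.sum_le_sum fun ξ _ => sq_diff_le _ _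
  have h2 := Real.sum_mul_le_sqrt_mul_sqrt Y (fun ξ => ‖u ξ - v ξ‖) (fun ξ => ‖u ξ‖ + ‖v ξ‖)
  have h3 : ∑ ξ ∈ Y, ‖u ξ - v ξ‖ ^ 2 ≤ q ^ 2 :=
    (Finset.sum_le_sum_of_subset_of_nonneg (Finset.subset_univ Y)
      (fun _ _ _ => by positivity)).trans h
  have h4 : ∑ ξ ∈ Y, (‖u ξ‖ + ‖v ξ‖) ^ 2 ≤ (2 * M) ^ 2 := by
    calc ∑ ξ ∈ Y, (‖u ξ‖ + ‖v ξ‖) ^ 2 ≤ ∑ ξ, (‖u ξ‖ + ‖v ξ‖) ^ 2 :=
          Finset.sum_le_sum_of_subset_of_nonneg (Finset.subset_univ Y) (fun _ _ _ => by positivity)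
      _ ≤ ∑ ξ, (2 * ‖u ξ‖ ^ 2 + 2 * ‖v ξ‖ ^ 2) := by
          apply Finset.sum_le_sum
          intro ξ _
          nlinarith [sq_nonneg (‖u ξ‖ - ‖v ξ‖)]
      _ = 2 * ∑ ξ, ‖u ξ‖ ^ 2 + 2 * ∑ ξ, ‖v ξ‖ ^ 2 := by
          rw [Finset.sum_add_distrib, Finset.mul_sum, Finset.mul_sum]
      _ ≤ (2 * M) ^ 2 := by nlinarith
  have h5 : Real.sqrt (∑ ξ ∈ Y, ‖u ξ - v ξ‖ ^ 2) ≤ q := by
    rw [show q = Real.sqrt (q ^ 2) from (Real.sqrt_sq hq).symm]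
    exact Real.sqrt_le_sqrt h3
  have h6 : Real.sqrt (∑ ξ ∈ Y, (‖u ξ‖ + ‖v ξ‖) ^ 2) ≤ 2 * M := by
    rw [show 2 * M = Real.sqrt ((2 * M) ^ 2) from (Real.sqrt_sq (by positivity)).symm]
    exact Real.sqrt_le_sqrt h4
  have h7 : Real.sqrt (∑ ξ ∈ Y, ‖u ξ - v ξ‖ ^ 2) * Real.sqrt (∑ ξ ∈ Y, (‖u ξ‖ + ‖v ξ‖) ^ 2) ≤
      q * (2 * M) := mul_le_mul h5 h6 (Real.sqrt_nonneg _) hq
  linarith

theorem gap_core (f : ZMod N × ZMod N → ℂ) (h0 : ∑ z, f z = 0) {en : ℝ}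
    (h1 : ∑ z, ‖f (tr (1, 0) z) - f z‖ ^ 2 ≤ en)
    (h2 : ∑ z, ‖f (tr (0, 1) z) - f z‖ ^ 2 ≤ en)
    (h3 : ∑ z, ‖f (sh1 z) - f z‖ ^ 2 ≤ en)
    (h4 : ∑ z, ‖f (sh2 z) - f z‖ ^ 2 ≤ en) :
    ∑ z, ‖f z‖ ^ 2 ≤ 1024 * en := by
  classical
  have hN : (0 : ℝ) < N := by exact_mod_cast NeZero.pos N
  have hen : 0 ≤ en := (Finset.sum_nonneg fun _ _ => by positivity).trans h1
  -- energies on the dual side
  have E : ∀ T : ZMod N × ZMod N ≃ ZMod N × ZMod N, ∑ z, ‖f (T z) - f z‖ ^ 2 ≤ en →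
      ∑ ξ, ‖ft (fun z => f (T z)) ξ - ft f ξ‖ ^ 2 ≤ (N * Real.sqrt en) ^ 2 := by
    intro T hT
    have := parseval (fun z => f (T z) - f z)
    simp only [ft_sub] at this
    rw [this, mul_pow, Real.sq_sqrt hen]
    exact mul_le_mul_of_nonneg_left hT (by positivity)
  have e1 := E _ h1
  have e2 := E _ h2
  have e3 := E _ h3
  have e4 := E _ h4
  simp only [ft_tr] at e1 e2
  simp only [ft_sh1] at e3
  simp only [ft_sh2] at e4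
  set q : ℝ := N * Real.sqrt en with hq
  have hq0 : 0 ≤ q := by positivity
  set M : ℝ := Real.sqrt (∑ ξ, ‖ft f ξ‖ ^ 2) with hM
  have hM0 : 0 ≤ M := Real.sqrt_nonneg _
  have hM2 : ∑ ξ, ‖ft f ξ‖ ^ 2 = M ^ 2 := by
    rw [hM, Real.sq_sqrt (Finset.sum_nonneg fun _ _ => by positivity)]
  have far : ∀ (p : ZMod N × ZMod N → ZMod N),
      ∑ ξ, ‖e (-(p ξ)) * ft f ξ - ft f ξ‖ ^ 2 ≤ q ^ 2 →
      ∑ ξ ∈ univ.filter (fun ξ => (N : ℤ) ≤ 8 * |rp (p ξ)|), ‖ft f ξ‖ ^ 2 ≤ 4 * q ^ 2 := by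
    intro p hp
    calc ∑ ξ ∈ univ.filter (fun ξ => (N : ℤ) ≤ 8 * |rp (p ξ)|), ‖ft f ξ‖ ^ 2
        ≤ ∑ ξ ∈ univ.filter (fun ξ => (N : ℤ) ≤ 8 * |rp (p ξ)|),
            4 * ‖e (-(p ξ)) * ft f ξ - ft f ξ‖ ^ 2 := by
          apply Finset.sum_le_sum
          intro ξ hξ
          have h5 := e_far (Finset.mem_filter.1 hξ).2
          have h6 : e (-(p ξ)) * ft f ξ - ft f ξ = (e (-(p ξ)) - 1) * ft f ξ := by ring
          rw [h6, norm_mul, mul_pow]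
          nlinarith [sq_nonneg ‖ft f ξ‖]
      _ ≤ ∑ ξ, 4 * ‖e (-(p ξ)) * ft f ξ - ft f ξ‖ ^ 2 :=
          Finset.sum_le_sum_of_subset_of_nonneg (Finset.filter_subset _ _)
            (fun _ _ _ => by positivity)
      _ ≤ 4 * q ^ 2 := by
          rw [← Finset.mul_sum]
          linarith
  have b1 := far (fun ξ => ξ.1) (by
    have : ∀ ξ : ZMod N × ZMod N, dot ξ (1, 0) = ξ.1 := by intro ξ; simp [dot]
    simpa only [this] using e1)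
  have b2 := far (fun ξ => ξ.2) (by
    have : ∀ ξ : ZMod N × ZMod N, dot ξ (0, 1) = ξ.2 := by intro ξ; simp [dot]
    simpa only [this] using e2)
  -- the two shears on the dual side
  have key : ∀ (S S' : ZMod N × ZMod N → ZMod N × ZMod N), (∀ ξ, S' (S ξ) = ξ) →
      (∀ ξ, S (S' ξ) = ξ) → ∑ ξ, ‖ft f (S ξ) - ft f ξ‖ ^ 2 ≤ q ^ 2 →
      (∀ Y : Finset (ZMod N × ZMod N), ∑ ξ ∈ Y, ‖ft f ξ‖ ^ 2 ≤ ∑ ξ ∈ Y, ‖ft f (S ξ)‖ ^ 2 +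
        2 * q * M) ∧
      (∀ Y : Finset (ZMod N × ZMod N), ∑ ξ ∈ Y, ‖ft f ξ‖ ^ 2 ≤ ∑ ξ ∈ Y, ‖ft f (S' ξ)‖ ^ 2 +
        2 * q * M) := by
    intro S S' hS hS' hE
    have tot : ∑ ξ, ‖ft f (S ξ)‖ ^ 2 = ∑ ξ, ‖ft f ξ‖ ^ 2 :=
      Equiv.sum_comp ⟨S, S', hS, hS'⟩ (fun ξ => ‖ft f ξ‖ ^ 2)
    constructor
    · intro Y
      apply mass_le (fun ξ => ft f ξ) (fun ξ => ft f (S ξ)) hq0 hM0 _ hM2.le (by rw [tot, hM2]) Y
      simpa only [norm_sub_rev] using hE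
    · intro Y
      have hinj : Function.Injective S' := fun a b hab => by rw [← hS' a, hab, hS']
      have h5 := mass_le (fun ξ => ft f (S ξ)) (fun ξ => ft f ξ) hq0 hM0 hE (by rw [tot, hM2])
        hM2.le (Y.image S')
      rw [Finset.sum_image (fun a _ b _ hab => hinj hab),
        Finset.sum_image (fun a _ b _ hab => hinj hab)] at h5
      simpa only [hS'] using h5
  obtain ⟨k1, k2⟩ := key Sm Sp Sp_Sm Sm_Sp e4
  obtain ⟨k3, k4⟩ := key (fun ξ => (Sm ξ.swap).swap) (fun ξ => (Sp ξ.swap).swap)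
    (fun ξ => by simp [Sp_Sm]) (fun ξ => by simp [Sm_Sp]) e3
  have hzero : ft f 0 = 0 := by
    unfold ft
    have : ∀ z : ZMod N × ZMod N, dot 0 z = 0 := by intro z; simp [dot]
    simp only [this]
    rw [e, AddChar.map_zero_eq_one]
    simpa using h0
  have P := ping (μ := fun ξ => ‖ft f ξ‖ ^ 2) (fun ξ => by positivity)
    (by simp [hzero]) b1 b2 k2 k1 k4 k3
  simp only [hM2] at P
  have h9 : M ^ 2 ≤ 1024 * q ^ 2 := by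
    by_contra hc
    push Not at hc
    have h10 : 32 * q < M := by
      by_contra hc2
      push Not at hc2
      nlinarith
    nlinarith
  have h11 := parseval f
  rw [hM2] at h11
  have h12 : q ^ 2 = N ^ 2 * en := by rw [hq, mul_pow, Real.sq_sqrt hen]
  rw [h11, h12] at h9
  have h13 : (0 : ℝ) < N ^ 2 := by positivity
  have h14 : (N : ℝ) ^ 2 * ∑ z, ‖f z‖ ^ 2 ≤ N ^ 2 * (1024 * en) := by linarith
  exact le_of_mul_le_mul_left h14 h13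

/-- real valued functions, all pairs -/
theorem gap_real (g : ZMod N × ZMod N → ℝ) {en : ℝ}
    (h1 : ∑ z, (g (tr (1, 0) z) - g z) ^ 2 ≤ en)
    (h2 : ∑ z, (g (tr (0, 1) z) - g z) ^ 2 ≤ en)
    (h3 : ∑ z, (g (sh1 z) - g z) ^ 2 ≤ en)
    (h4 : ∑ z, (g (sh2 z) - g z) ^ 2 ≤ en) :
    ∑ z, ∑ w, (g z - g w) ^ 2 ≤ 2048 * (N : ℝ) ^ 2 * en := by
  have hN : (0 : ℝ) < N := by exact_mod_cast NeZero.pos N
  have hcard : ((Fintype.card (ZMod N × ZMod N) : ℕ) : ℝ) = (N : ℝ) ^ 2 := by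
    rw [Fintype.card_prod, ZMod.card]; push_cast; ring
  set m : ℝ := (∑ z, g z) / N ^ 2 with hm
  have hs : ∑ z, (g z - m) = 0 := by
    rw [Finset.sum_sub_distrib, Finset.sum_const, nsmul_eq_mul, Finset.card_univ, hcard, hm]
    field_simp
    ring
  have tr' : ∀ T : ZMod N × ZMod N ≃ ZMod N × ZMod N, ∑ z, (g (T z) - g z) ^ 2 ≤ en →
      ∑ z, ‖((g (T z) - m : ℝ) : ℂ) - ((g z - m : ℝ) : ℂ)‖ ^ 2 ≤ en := by
    intro T hT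
    convert hT using 2 with z
    rw [← Complex.ofReal_sub, Complex.norm_real, Real.norm_eq_abs, sq_abs]
    ring
  have G := gap_core (fun z => ((g z - m : ℝ) : ℂ))
    (by rw [← Complex.ofReal_sum, hs]; simp) (tr' _ h1) (tr' _ h2) (tr' _ h3) (tr' _ h4)
  simp only [Complex.norm_real, Real.norm_eq_abs, sq_abs] at G
  have I : ∑ z, ∑ w, (g z - g w) ^ 2 = 2 * (N : ℝ) ^ 2 * ∑ z, (g z - m) ^ 2 := by
    have e1 : ∀ z, ∑ w, (g z - g w) ^ 2 =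
        (N : ℝ) ^ 2 * (g z - m) ^ 2 + ∑ w, (g w - m) ^ 2 := by
      intro z
      have e2 : ∀ w, (g z - g w) ^ 2 =
          (g z - m) ^ 2 + (g w - m) ^ 2 - 2 * (g z - m) * (g w - m) := by
        intro w; ring
      simp only [e2]
      rw [Finset.sum_sub_distrib, Finset.sum_add_distrib, ← Finset.mul_sum, hs, Finset.sum_const,
        nsmul_eq_mul, Finset.card_univ, hcard]
      ring
    simp only [e1]
    rw [Finset.sum_add_distrib, ← Finset.mul_sum, Finset.sum_const, nsmul_eq_mul,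
      Finset.card_univ, hcard]
    ring
  rw [I]
  have : (0 : ℝ) < 2 * N ^ 2 := by positivity
  nlinarith [mul_le_mul_of_nonneg_left G this.le]

/-- functions with values in a real inner product space, all pairs -/
theorem gap_vec {E : Type*} [NormedAddCommGroup E] [InnerProductSpace ℝ E]
    (F : ZMod N × ZMod N → E) {en : ℝ}
    (h1 : ∑ z, ‖F (tr (1, 0) z) - F z‖ ^ 2 ≤ en)
    (h2 : ∑ z, ‖F (tr (0, 1) z) - F z‖ ^ 2 ≤ en)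
    (h3 : ∑ z, ‖F (sh1 z) - F z‖ ^ 2 ≤ en)
    (h4 : ∑ z, ‖F (sh2 z) - F z‖ ^ 2 ≤ en) :
    ∑ z, ∑ w, ‖F z - F w‖ ^ 2 ≤ 8192 * (N : ℝ) ^ 2 * en := by
  classical
  let S : Submodule ℝ E := Submodule.span ℝ (Set.range F)
  have : FiniteDimensional ℝ S := FiniteDimensional.span_of_finite ℝ (Set.finite_range F)
  let b := stdOrthonormalBasis ℝ S
  let F' : ZMod N × ZMod N → S := fun z => ⟨F z, Submodule.subset_span ⟨z, rfl⟩⟩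
  let c : ZMod N × ZMod N → Fin (Module.finrank ℝ S) → ℝ := fun z i => inner ℝ (b i) (F' z)
  have hn : ∀ z w, ‖F z - F w‖ ^ 2 = ∑ i, (c z i - c w i) ^ 2 := by
    intro z w
    have h5 := b.sum_sq_norm_inner_right (F' z - F' w)
    have h6 : ‖F' z - F' w‖ = ‖F z - F w‖ := rfl
    rw [h6] at h5
    rw [← h5]
    apply Finset.sum_congr rfl
    intro i _
    rw [inner_sub_right, Real.norm_eq_abs, sq_abs]
  simp only [hn] at h1 h2 h3 h4 ⊢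
  rw [Finset.sum_comm] at h1 h2 h3 h4
  have h5 : ∑ z, ∑ w, ∑ i, (c z i - c w i) ^ 2 = ∑ i, ∑ z, ∑ w, (c z i - c w i) ^ 2 := by
    rw [Finset.sum_comm' (s := univ) (t := fun _ => univ) (t' := univ) (s' := fun _ => univ)
      (f := fun z w => ∑ i, (c z i - c w i) ^ 2) (by simp)]
    rw [Finset.sum_comm]
    have : ∀ z, ∑ w, ∑ i, (c z i - c w i) ^ 2 = ∑ i, ∑ w, (c z i - c w i) ^ 2 := by
      intro z; rw [Finset.sum_comm]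
    simp only [this]
    rw [Finset.sum_comm]
  rw [h5]
  have h6 : ∀ i, ∑ z, ∑ w, (c z i - c w i) ^ 2 ≤ 2048 * (N : ℝ) ^ 2 *
      (∑ z, (c (tr (1, 0) z) i - c z i) ^ 2 + ∑ z, (c (tr (0, 1) z) i - c z i) ^ 2 +
        ∑ z, (c (sh1 z) i - c z i) ^ 2 + ∑ z, (c (sh2 z) i - c z i) ^ 2) := by
    intro i
    have p1 : 0 ≤ ∑ z, (c (tr (1, 0) z) i - c z i) ^ 2 := Finset.sum_nonneg fun _ _ => sq_nonneg _
    have p2 : 0 ≤ ∑ z, (c (tr (0, 1) z) i - c z i) ^ 2 := Finset.sum_nonneg fun _ _ => sq_nonneg _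
    have p3 : 0 ≤ ∑ z, (c (sh1 z) i - c z i) ^ 2 := Finset.sum_nonneg fun _ _ => sq_nonneg _
    have p4 : 0 ≤ ∑ z, (c (sh2 z) i - c z i) ^ 2 := Finset.sum_nonneg fun _ _ => sq_nonneg _
    apply gap_real (fun z => c z i)
    · linarith
    · linarith
    · linarith
    · linarith
  calc ∑ i, ∑ z, ∑ w, (c z i - c w i) ^ 2 ≤ ∑ i, 2048 * (N : ℝ) ^ 2 *
      (∑ z, (c (tr (1, 0) z) i - c z i) ^ 2 + ∑ z, (c (tr (0, 1) z) i - c z i) ^ 2 +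
        ∑ z, (c (sh1 z) i - c z i) ^ 2 + ∑ z, (c (sh2 z) i - c z i) ^ 2) :=
        Finset.sum_le_sum fun i _ => h6 i
    _ = 2048 * (N : ℝ) ^ 2 * (∑ i, ∑ z, (c (tr (1, 0) z) i - c z i) ^ 2 +
        ∑ i, ∑ z, (c (tr (0, 1) z) i - c z i) ^ 2 + ∑ i, ∑ z, (c (sh1 z) i - c z i) ^ 2 +
        ∑ i, ∑ z, (c (sh2 z) i - c z i) ^ 2) := by
        rw [← Finset.mul_sum, Finset.sum_add_distrib, Finset.sum_add_distrib,
          Finset.sum_add_distrib]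
    _ ≤ 2048 * (N : ℝ) ^ 2 * (en + en + en + en) := by
        apply mul_le_mul_of_nonneg_left _ (by positivity)
        linarith
    _ = 8192 * (N : ℝ) ^ 2 * en := by ring

end Pool.Agent.H56.Auto
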