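import Pool.Agent.H56.Auto.Digits
import Pool.Agent.H56.Auto.Gap

set_option autoImplicit false
set_option linter.unusedSectionVars false

namespace Pool.Agent.H56.Auto

/-- value of a list of bits, least significant bit first -/
def num : List Bool → ℕ
  | [] => 0
  | b :: l => b.toNat + 2 * num l

/-- the first `t` bits of a number -/
def bits : ℕ → ℕ → List Bool
  | 0, _ => []
  | t + 1, x => decide (x % 2 = 1) :: bits t (x / 2)

theorem length_bits (t x : ℕ) : (bits t x).length = t := by
  induction t generalizing x with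
  | zero => rfl
  | succ t ih => simp [bits, ih]

theorem num_lt (l : List Bool) : num l < 2 ^ l.length := by
  induction l with
  | nil => simp [num]
  | cons b l ih =>
    rw [num, List.length_cons, pow_succ]
    have := Bool.toNat_lt b
    omega

theorem bits_num (l : List Bool) : bits l.length (num l) = l := by
  induction l with
  | nil => rfl
  | cons b l ih =>
    rw [List.length_cons, bits, num]
    have h1 : (b.toNat + 2 * num l) / 2 = num l := by
      have := Bool.toNat_lt b
      omega
    have h2 : decide ((b.toNat + 2 * num l) % 2 = 1) = b := by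
      cases b
      · simp
      · simp [Nat.add_mod]
    rw [h1, h2, ih]

theorem num_bits (t x : ℕ) (h : x < 2 ^ t) : num (bits t x) = x := by
  induction t generalizing x with
  | zero =>
    have : x = 0 := by simpa using h
    simp [bits, num, this]
  | succ t ih =>
    rw [bits, num, ih (x / 2) (by rw [pow_succ] at h; omega)]
    by_cases h2 : x % 2 = 1
    · simp only [h2, decide_true, Bool.toNat_true]
      omega
    · simp only [h2, decide_false, Bool.toNat_false]
      omega

/-- the point of `(ZMod 2^t)²` written by a word of length `t` -/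
def dec (t : ℕ) (l : List D) : ZMod (2 ^ t) × ZMod (2 ^ t) :=
  ((num (l.map Prod.fst) : ZMod (2 ^ t)), (num (l.map Prod.snd) : ZMod (2 ^ t)))

/-- the word of length `t` of a point -/
def enc (t : ℕ) (z : ZMod (2 ^ t) × ZMod (2 ^ t)) : List D :=
  List.zip (bits t z.1.val) (bits t z.2.val)

theorem length_enc (t : ℕ) (z : ZMod (2 ^ t) × ZMod (2 ^ t)) : (enc t z).length = t := by
  simp [enc, length_bits]

theorem dec_enc (t : ℕ) (z : ZMod (2 ^ t) × ZMod (2 ^ t)) : dec t (enc t z) = z := by
  have h1 : (enc t z).map Prod.fst = bits t z.1.val := by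
    rw [enc, List.map_fst_zip]
    simp [length_bits]
  have h2 : (enc t z).map Prod.snd = bits t z.2.val := by
    rw [enc, List.map_snd_zip]
    simp [length_bits]
  rw [dec, h1, h2, num_bits _ _ (ZMod.val_lt _), num_bits _ _ (ZMod.val_lt _)]
  ext <;> simp

theorem enc_dec (t : ℕ) (l : List D) (hl : l.length = t) : enc t (dec t l) = l := by
  subst hl
  have h1 := num_lt (l.map Prod.fst)
  have h2 := num_lt (l.map Prod.snd)
  rw [List.length_map] at h1 h2
  rw [enc, dec]
  simp only [ZMod.val_natCast_of_lt h1, ZMod.val_natCast_of_lt h2]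
  have h3 := bits_num (l.map Prod.fst)
  have h4 := bits_num (l.map Prod.snd)
  rw [List.length_map] at h3 h4
  rw [h3, h4]
  exact (List.zip_unzip l).trans rfl |> fun h => by simpa [List.unzip_eq_map] using h

theorem length_aJ (b : Bool) (l : List D) : (aJ b l).length = l.length := by
  induction l generalizing b with
  | nil => rfl
  | cons d l ih => simp [aJ, ih]

theorem num_aC (l : List D) :
    num ((aC l).map Prod.fst) + num (l.map Prod.fst) + 1 = 2 ^ l.length := by
  induction l with
  | nil => simp [aC, num]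
  | cons d l ih =>
    obtain ⟨x, y⟩ := d
    have : (aC ((x, y) :: l)) = (!x, y) :: aC l := rfl
    rw [this, List.map_cons, List.map_cons, List.length_cons, num, num, pow_succ]
    simp only
    have h : (!x).toNat + x.toNat = 1 := by cases x <;> rfl
    omega

theorem num_aC_snd (l : List D) : (aC l).map Prod.snd = l.map Prod.snd := by
  simp [aC, Function.comp_def]

theorem aJ_snd (b : Bool) (l : List D) : (aJ b l).map Prod.snd = l.map Prod.snd := by
  induction l generalizing b with
  | nil => rfl
  | cons d l ih => simp [aJ, ih]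

theorem num_aJ (b : Bool) (l : List D) : ∃ k : ℤ,
    (num ((aJ b l).map Prod.fst) : ℤ) = num (l.map Prod.snd) - num (l.map Prod.fst) - b.toNat +
      2 ^ l.length * k := by
  induction l generalizing b with
  | nil =>
    refine ⟨b.toNat, ?_⟩
    simp [aJ, num]
  | cons d l ih =>
    obtain ⟨x, y⟩ := d
    obtain ⟨k, hk⟩ := ih (maj (!y) x b)
    refine ⟨k, ?_⟩
    simp only [aJ, List.map_cons, num, List.length_cons, pow_succ]
    push_cast
    rw [hk]
    have h : ((xor y (xor x b)).toNat : ℤ) - 2 * ((maj (!y) x b).toNat : ℤ) =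
        (y.toNat : ℤ) - x.toNat - b.toNat := by
      cases x <;> cases y <;> cases b <;> rfl
    linarith

theorem enc_W (t : ℕ) (z : ZMod (2 ^ t) × ZMod (2 ^ t)) : aW (enc t z) = enc t (z.2, z.1) := by
  rw [← enc_dec t (aW (enc t z)) (by simp [aW, length_enc])]
  congr 1
  have h1 : dec t (aW (enc t z)) = (dec t (enc t z)).swap := by
    simp [dec, aW, Function.comp_def]
  rw [h1, dec_enc]
  rfl

theorem enc_C (t : ℕ) (z : ZMod (2 ^ t) × ZMod (2 ^ t)) :
    aC (enc t z) = enc t (-1 - z.1, z.2) := by
  rw [← enc_dec t (aC (enc t z)) (by simp [aC, length_enc])]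
  congr 1
  have h1 := num_aC (enc t z)
  rw [length_enc] at h1
  have h2 := congrArg (Nat.cast (R := ZMod (2 ^ t))) h1
  rw [ZMod.natCast_self] at h2
  push_cast at h2
  have h3 := dec_enc t z
  have h4 : ((num ((enc t z).map Prod.fst) : ℕ) : ZMod (2 ^ t)) = z.1 := congrArg Prod.fst h3
  have h5 : ((num ((enc t z).map Prod.snd) : ℕ) : ZMod (2 ^ t)) = z.2 := congrArg Prod.snd h3
  rw [h4] at h2
  ext
  · show ((num ((aC (enc t z)).map Prod.fst) : ℕ) : ZMod (2 ^ t)) = -1 - z.1
    linear_combination h2
  · show ((num ((aC (enc t z)).map Prod.snd) : ℕ) : ZMod (2 ^ t)) = z.2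
    rw [num_aC_snd, h5]

theorem enc_J (t : ℕ) (z : ZMod (2 ^ t) × ZMod (2 ^ t)) :
    aJ false (enc t z) = enc t (z.2 - z.1, z.2) := by
  rw [← enc_dec t (aJ false (enc t z)) (by simp [length_aJ, length_enc])]
  congr 1
  obtain ⟨k, h1⟩ := num_aJ false (enc t z)
  rw [length_enc] at h1
  have h2 := congrArg (Int.cast (R := ZMod (2 ^ t))) h1
  have h0 : ((2 : ZMod (2 ^ t)) ^ t) = 0 := by
    have := ZMod.natCast_self (2 ^ t)
    push_cast at this
    exact this
  push_cast at h2
  rw [h0, zero_mul] at h2
  have h3 := dec_enc t z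
  have h4 : ((num ((enc t z).map Prod.fst) : ℕ) : ZMod (2 ^ t)) = z.1 := congrArg Prod.fst h3
  have h5 : ((num ((enc t z).map Prod.snd) : ℕ) : ZMod (2 ^ t)) = z.2 := congrArg Prod.snd h3
  rw [h4, h5] at h2
  ext
  · show ((num ((aJ false (enc t z)).map Prod.fst) : ℕ) : ZMod (2 ^ t)) = z.2 - z.1
    rw [h2]
    simp
  · show ((num ((aJ false (enc t z)).map Prod.snd) : ℕ) : ZMod (2 ^ t)) = z.2
    rw [aJ_snd, h5]

/-- words for the translations and the shears by two -/
def w1 : List Gen := [.J, .W, .C, .W, .J, .W, .C, .W, .C, .J, .C, .J]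
def w3 : List Gen := [.W, .C, .W, .J, .W, .C, .W, .J, .J, .C, .J, .C, .W, .C, .W, .J, .W, .C, .W, .J]
def w2 : List Gen := .W :: (w1 ++ [.W])
def w4 : List Gen := .W :: (w3 ++ [.W])

theorem run_w1 (t : ℕ) (z : ZMod (2 ^ t) × ZMod (2 ^ t)) :
    run w1 (enc t z) = enc t (tr (1, 0) z) := by
  simp only [run, w1, List.foldl_cons, List.foldl_nil, act, enc_W, enc_C, enc_J, tr,
    Equiv.coe_addRight]
  congr 1
  ext
  · simp only [Prod.fst_add]; ring
  · simp only [Prod.snd_add]; ring

theorem run_w3 (t : ℕ) (z : ZMod (2 ^ t) × ZMod (2 ^ t)) :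
    run w3 (enc t z) = enc t (sh1 z) := by
  simp only [run, w3, List.foldl_cons, List.foldl_nil, act, enc_W, enc_C, enc_J, sh1,
    Equiv.coe_fn_mk]
  congr 1
  ext
  · simp only; ring
  · simp only; ring

theorem run_conj (w : List Gen) (l : List D) :
    run (.W :: (w ++ [.W])) l = aW (run w (aW l)) := by
  simp [run, act]

theorem run_w2 (t : ℕ) (z : ZMod (2 ^ t) × ZMod (2 ^ t)) :
    run w2 (enc t z) = enc t (tr (0, 1) z) := by
  rw [w2, run_conj, enc_W, run_w1, enc_W]
  rfl

theorem run_w4 (t : ℕ) (z : ZMod (2 ^ t) × ZMod (2 ^ t)) :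
    run w4 (enc t z) = enc t (sh2 z) := by
  rw [w4, run_conj, enc_W, run_w3, enc_W]
  rfl

end Pool.Agent.H56.Auto
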