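import Pool.Agent.H56.Auto.Digits

set_option autoImplicit false
set_option linter.unusedSectionVars false

namespace Pool.Agent.H56.Auto

/-- padded pair, recursively -/
def pz {A : Type} : List A → List A → List (Option A × Option A)
  | [], v => v.map fun b => (none, some b)
  | a :: u, [] => (some a, none) :: pz u []
  | a :: u, b :: v => (some a, some b) :: pz u v

theorem pz_eq {A : Type} (u v : List A) : pz u v =
    List.zip (u.map some ++ List.replicate (v.length - u.length) none)
      (v.map some ++ List.replicate (u.length - v.length) none) := by
  induction u generalizing v with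
  | nil =>
    induction v with
    | nil => rfl
    | cons b v ih =>
      have h1 : pz [] (b :: v) = (none, some b) :: pz [] v := rfl
      rw [h1, ih]
      simp [List.replicate_succ]
  | cons a u ih =>
    cases v with
    | nil =>
      have h1 : pz (a :: u) [] = (some a, none) :: pz u [] := rfl
      rw [h1, ih]
      simp [List.replicate_succ]
    | cons b v =>
      have h1 : pz (a :: u) (b :: v) = (some a, some b) :: pz u v := rfl
      rw [h1, ih]
      simp

/-- a length preserving machine -/
def me {S : Type} (out : S → D → D) (nxt : S → D → S) : S → List D → List D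
  | _, [] => []
  | s, d :: l => out s d :: me out nxt (nxt s d) l

/-- transition of the automaton for the graph of a length preserving machine -/
def meStep {S : Type} (out : S → D → D) (nxt : S → D → S) :
    Option (Bool × S) → Option Gen × Option Gen → Option (Bool × S)
  | some (q, s), (some (Gen.V q' d), some (Gen.V q'' d')) =>
      if q' = q ∧ q'' = q ∧ d' = out s d then some (!q, nxt s d) else none
  | _, _ => none

/-- the automaton -/
def meDFA {S : Type} (out : S → D → D) (nxt : S → D → S) (s0 : S) :
    DFA (Option Gen × Option Gen) (Option (Bool × S)) where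
  step := meStep out nxt
  start := some (false, s0)
  accept := {x | x.isSome}

theorem me_none {S : Type} (out : S → D → D) (nxt : S → D → S)
    (z : List (Option Gen × Option Gen)) : z.foldl (meStep out nxt) none = none := by
  induction z with
  | nil => rfl
  | cons c z ih => exact ih

theorem me_acc {S : Type} (out : S → D → D) (nxt : S → D → S)
    (z : List (Option Gen × Option Gen)) (q : Bool) (s : S) :
    (z.foldl (meStep out nxt) (some (q, s))).isSome ↔
      ∃ l, z = pz (vw q l) (vw q (me out nxt s l)) := by
  induction z generalizing q s with
  | nil =>
    constructor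
    · intro _
      exact ⟨[], rfl⟩
    · intro _
      rfl
  | cons c z ih =>
    rw [List.foldl_cons]
    constructor
    · intro h
      by_cases hc : ∃ d, c = (some (Gen.V q d), some (Gen.V q (out s d)))
      · obtain ⟨d, rfl⟩ := hc
        have : meStep out nxt (some (q, s)) (some (Gen.V q d), some (Gen.V q (out s d))) =
            some (!q, nxt s d) := by simp [meStep]
        rw [this, ih] at h
        obtain ⟨l, rfl⟩ := h
        exact ⟨d :: l, rfl⟩
      · have : meStep out nxt (some (q, s)) c = none := by
          rcases c with ⟨_ | (_ | _ | _ | ⟨q', d⟩), _ | (_ | _ | _ | ⟨q'', d'⟩)⟩ <;> try rfl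
          simp only [meStep]
          rw [if_neg]
          rintro ⟨rfl, rfl, rfl⟩
          exact hc ⟨d, rfl⟩
        rw [this, me_none] at h
        simp at h
    · rintro ⟨l, hl⟩
      cases l with
      | nil => simp [vw, me, pz] at hl
      | cons d l =>
        simp only [vw, me, pz, List.cons.injEq] at hl
        obtain ⟨rfl, rfl⟩ := hl
        have : meStep out nxt (some (q, s)) (some (Gen.V q d), some (Gen.V q (out s d))) =
            some (!q, nxt s d) := by simp [meStep]
        rw [this, ih]
        exact ⟨l, rfl⟩

theorem meDFA_acc {S : Type} (out : S → D → D) (nxt : S → D → S) (s0 : S)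
    (z : List (Option Gen × Option Gen)) :
    z ∈ (meDFA out nxt s0).accepts ↔ ∃ l, z = pz (vw false l) (vw false (me out nxt s0 l)) :=
  me_acc out nxt z false s0

/-- states of the automaton for the generators `V p d`: `none` is the sink,
`some (inl (q, r))`: parity `q`, the flag `r` says that the last digit was `d`,
`some (inr ())`: finished -/
abbrev SV := Option ((Bool × Bool) ⊕ Unit)

/-- its transitions -/
def vStep (p : Bool) (d : D) : SV → Option Gen × Option Gen → SV
  | some (.inl (q, _)), (some (Gen.V q' a), some (Gen.V q'' a')) =>
      if q' = q ∧ q'' = q ∧ a' = a then some (.inl (!q, decide (a = d))) else none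
  | some (.inl (q, _)), (none, some (Gen.V q' a)) =>
      if q = p ∧ q' = q ∧ a = d then some (.inr ()) else none
  | some (.inl (q, _)), (some (Gen.V q' a), none) =>
      if q = p ∧ q' = q ∧ a = d then some (.inr ()) else none
  | _, _ => none

/-- accepting states -/
def vOk (p : Bool) : SV → Bool
  | some (.inl (q, r)) => (q != p) && !r
  | some (.inr _) => true
  | none => false

/-- the automaton -/
def vDFA (p : Bool) (d : D) : DFA (Option Gen × Option Gen) SV where
  step := vStep p d
  start := some (.inl (false, false))
  accept := {x | vOk p x = true}

theorem v_none (p : Bool) (d : D) (z : List (Option Gen × Option Gen)) :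
    z.foldl (vStep p d) none = none := by
  induction z with
  | nil => rfl
  | cons c z ih => exact ih

theorem v_done (p : Bool) (d : D) (z : List (Option Gen × Option Gen)) :
    vOk p (z.foldl (vStep p d) (some (.inr ()))) = true ↔ z = [] := by
  cases z with
  | nil => simp [vOk]
  | cons c z =>
    have : vStep p d (some (.inr ())) c = none := rfl
    rw [List.foldl_cons, this, v_none]
    simp [vOk]

theorem v_acc (p : Bool) (d : D) (z : List (Option Gen × Option Gen)) (q r : Bool) :
    vOk p (z.foldl (vStep p d) (some (.inl (q, r)))) = true ↔
      ∃ l, z = pz (vw q l) (vw q (aV p d q l)) ∧ (l = [] → q ≠ p → r = false) := by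
  induction z generalizing q r with
  | nil =>
    simp only [List.foldl_nil, vOk]
    constructor
    · intro h
      have h1 : q ≠ p := by
        rintro rfl
        simp at h
      have h2 : r = false := by
        cases r
        · rfl
        · simp at h
      refine ⟨[], ?_, fun _ _ => h2⟩
      simp [aV, h1, vw, pz]
    · rintro ⟨l, hl, h⟩
      cases l with
      | nil =>
        by_cases h1 : q = p
        · simp [aV, h1, vw, pz] at hl
        · simp [h1, h rfl h1]
      | cons a l =>
        exfalso
        revert hl
        rw [vw]
        generalize vw q (aV p d q (a :: l)) = m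
        cases m <;> simp [pz]
  | cons c z ih =>
    rw [List.foldl_cons]
    constructor
    · intro h
      rcases c with ⟨_ | (_ | _ | _ | ⟨q', a⟩), _ | (_ | _ | _ | ⟨q'', a'⟩)⟩
      all_goals first
        | (exfalso; revert h; simp only [vStep, v_none, vOk]; simp; done)
        | skip
      · -- append
        simp only [vStep] at h
        split_ifs at h with h1
        · rw [v_done] at h
          obtain ⟨rfl, rfl, rfl⟩ := h1
          subst h
          exact ⟨[], by simp [aV, vw, pz], fun _ h => absurd rfl h⟩
        · rw [v_none] at h
          simp [vOk] at h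
      · -- remove
        simp only [vStep] at h
        split_ifs at h with h1
        · rw [v_done] at h
          obtain ⟨rfl, rfl, rfl⟩ := h1
          subst h
          exact ⟨[a], by simp [aV, vw, pz], fun h => by simp at h⟩
        · rw [v_none] at h
          simp [vOk] at h
      · simp only [vStep] at h
        split_ifs at h with h1
        · obtain ⟨rfl, rfl, rfl⟩ := h1
          rw [ih] at h
          obtain ⟨l, rfl, hl⟩ := h
          refine ⟨a' :: l, ?_, fun h => by simp at h⟩
          have h2 : ¬ (q'' = p ∧ a' = d ∧ l = []) := by
            rintro ⟨h3, h4, h5⟩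
            have := hl h5 (by rw [h3]; cases p <;> simp)
            simp [h4] at this
          rw [aV, if_neg h2]
          rfl
        · rw [v_none] at h
          simp [vOk] at h
    · rintro ⟨l, hl, h⟩
      cases l with
      | nil =>
        by_cases h1 : q = p
        · simp only [aV, h1, if_true, vw, pz] at hl
          obtain ⟨rfl, rfl⟩ := hl
          simp [vStep, h1, vOk]
        · simp [aV, h1, vw, pz] at hl
      | cons a l =>
        by_cases h1 : q = p ∧ a = d ∧ l = []
        · obtain ⟨rfl, rfl, rfl⟩ := h1
          simp only [aV, and_self, if_true, vw, pz, List.cons.injEq] at hl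
          obtain ⟨rfl, rfl⟩ := hl
          simp [vStep, vOk]
        · rw [aV, if_neg h1] at hl
          simp only [vw, pz, List.cons.injEq] at hl
          obtain ⟨rfl, rfl⟩ := hl
          have : vStep p d (some (.inl (q, r))) (some (Gen.V q a), some (Gen.V q a)) =
              some (.inl (!q, decide (a = d))) := by simp [vStep]
          rw [this, ih]
          refine ⟨l, rfl, fun h2 h3 => ?_⟩
          by_contra h4
          apply h1
          refine ⟨?_, by simpa using h4, h2⟩
          revert h3
          cases q <;> cases p <;> simp

theorem vDFA_acc (p : Bool) (d : D) (z : List (Option Gen × Option Gen)) :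
    z ∈ (vDFA p d).accepts ↔ ∃ l, z = pz (vw false l) (vw false (aV p d false l)) := by
  have := v_acc p d z false false
  simp only [implies_true, and_true] at this
  exact this

/-- the normal forms form a regular language -/
def nfStep : Option Bool → Gen → Option Bool
  | some q, Gen.V q' _ => if q' = q then some (!q) else none
  | _, _ => none

def nfDFA : DFA Gen (Option Bool) where
  step := nfStep
  start := some false
  accept := {x | x.isSome}

theorem nf_none (z : List Gen) : z.foldl nfStep none = none := by
  induction z with
  | nil => rfl
  | cons c z ih => exact ih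

theorem nf_acc (z : List Gen) (q : Bool) :
    (z.foldl nfStep (some q)).isSome ↔ ∃ l, z = vw q l := by
  induction z generalizing q with
  | nil =>
    constructor
    · intro _
      exact ⟨[], rfl⟩
    · intro _
      rfl
  | cons c z ih =>
    rw [List.foldl_cons]
    constructor
    · intro h
      by_cases hc : ∃ d, c = Gen.V q d
      · obtain ⟨d, rfl⟩ := hc
        have : nfStep (some q) (Gen.V q d) = some (!q) := by simp [nfStep]
        rw [this, ih] at h
        obtain ⟨l, rfl⟩ := h
        exact ⟨d :: l, rfl⟩
      · have : nfStep (some q) c = none := by
          rcases c with _ | _ | _ | ⟨q', d⟩ <;> try rfl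
          simp only [nfStep]
          rw [if_neg]
          rintro rfl
          exact hc ⟨d, rfl⟩
        rw [this, nf_none] at h
        simp at h
    · rintro ⟨l, hl⟩
      cases l with
      | nil => simp [vw] at hl
      | cons d l =>
        simp only [vw, List.cons.injEq] at hl
        obtain ⟨rfl, rfl⟩ := hl
        have : nfStep (some q) (Gen.V q d) = some (!q) := by simp [nfStep]
        rw [this, ih]
        exact ⟨l, rfl⟩

/-- the language of normal forms -/
def NF : Language Gen := Set.range (vw false)

theorem nfDFA_acc : nfDFA.accepts = NF := by
  ext z
  have := nf_acc z false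
  rw [show z ∈ NF ↔ ∃ l, z = vw false l by
    constructor
    · rintro ⟨l, rfl⟩
      exact ⟨l, rfl⟩
    · rintro ⟨l, rfl⟩
      exact ⟨l, rfl⟩]
  exact this

theorem aW_me (l : List D) : me (fun (_ : Unit) d => d.swap) (fun _ _ => ()) () l = aW l := by
  induction l with
  | nil => rfl
  | cons d l ih => simp only [me, ih]; rfl

theorem aC_me (l : List D) :
    me (fun (_ : Unit) d => (!d.1, d.2)) (fun _ _ => ()) () l = aC l := by
  induction l with
  | nil => rfl
  | cons d l ih => simp only [me, ih]; rfl

theorem id_me (l : List D) : me (fun (_ : Unit) d => d) (fun _ _ => ()) () l = l := by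
  induction l with
  | nil => rfl
  | cons d l ih => simp only [me, ih]

theorem aJ_me (b : Bool) (l : List D) :
    me (fun (b : Bool) (d : D) => (xor d.2 (xor d.1 b), d.2)) (fun b d => maj (!d.2) d.1 b) b l =
      aJ b l := by
  induction l generalizing b with
  | nil => rfl
  | cons d l ih => simp only [me, ih]; rfl

/-- the graphs of the generators, and of the identity, are regular -/
theorem graph_regular (b : Option Gen) : ∃ (σ : Type) (_ : Fintype σ)
    (M : DFA (Option Gen × Option Gen) σ), ∀ z, z ∈ M.accepts ↔
      ∃ l, z = pz (vw false l) (vw false (b.elim l (fun a => act a l))) := by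
  rcases b with _ | (_ | _ | _ | ⟨p, d⟩)
  · refine ⟨_, inferInstance, meDFA (fun (_ : Unit) d => d) (fun _ _ => ()) (), fun z => ?_⟩
    rw [meDFA_acc]
    simp only [id_me]
    rfl
  · refine ⟨_, inferInstance, meDFA (fun (_ : Unit) d => d.swap) (fun _ _ => ()) (), fun z => ?_⟩
    rw [meDFA_acc]
    simp only [aW_me]
    rfl
  · refine ⟨_, inferInstance, meDFA (fun (_ : Unit) d => (!d.1, d.2)) (fun _ _ => ()) (),
      fun z => ?_⟩
    rw [meDFA_acc]
    simp only [aC_me]
    rfl
  · refine ⟨_, inferInstance, meDFA (fun (b : Bool) (d : D) => (xor d.2 (xor d.1 b), d.2))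
      (fun b d => maj (!d.2) d.1 b) false, fun z => ?_⟩
    rw [meDFA_acc]
    simp only [aJ_me]
    rfl
  · exact ⟨_, inferInstance, vDFA p d, fun z => vDFA_acc p d z⟩

end Pool.Agent.H56.Auto
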