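import Pool.Agent.H56.Auto.Defs
import Pool.Agent.H56.Auto.Reg
import Pool.Agent.H56.Auto.Num

set_option autoImplicit false
set_option linter.unusedSectionVars false

namespace Pool.Agent.H56.Auto

/-- the generators as permutations of the set of words of digits -/
def perm (a : Gen) : Equiv.Perm (List D) := ⟨act a, act a, act_act a, act_act a⟩

theorem perm_mul (a : Gen) : perm a * perm a = 1 := by
  apply Equiv.ext
  intro l
  exact act_act a l

/-- the action of one free factor -/
def factor (a : Gen) : Multiplicative (ZMod 2) →* Equiv.Perm (List D) where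
  toFun z := if z = 1 then 1 else perm a
  map_one' := by simp
  map_mul' x y := by
    have h : ∀ z : Multiplicative (ZMod 2), z = 1 ∨ z = Multiplicative.ofAdd 1 := by decide
    have h1 : (Multiplicative.ofAdd (1 : ZMod 2)) * Multiplicative.ofAdd 1 = 1 := by decide
    have h2 : Multiplicative.ofAdd (1 : ZMod 2) ≠ 1 := by decide
    rcases h x with rfl | rfl <;> rcases h y with rfl | rfl
    · simp
    · simp [h2]
    · simp [h2]
    · rw [h1, if_pos rfl, if_neg h2, perm_mul]

/-- the group -/
abbrev GG : Type := FreeInvolutions Gen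

/-- the action -/
def Phi : GG →* Equiv.Perm (List D) := Monoid.CoprodI.lift factor

/-- the generators -/
abbrev gn (a : Gen) : GG := letter a

theorem Phi_gn (a : Gen) : Phi (gn a) = perm a := by
  unfold Phi gn letter
  rw [Monoid.CoprodI.lift_of]
  have h2 : Multiplicative.ofAdd (1 : ZMod 2) ≠ 1 := by decide
  show (if Multiplicative.ofAdd (1 : ZMod 2) = 1 then 1 else perm a) = perm a
  rw [if_neg h2]

/-- the stabiliser of the empty word -/
def HH : Subgroup GG :=
  (MulAction.stabilizer (Equiv.Perm (List D)) ([] : List D)).comap Phi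

/-- the point of a coset -/
def pt (g : GG) : List D := (Phi g)⁻¹ []

theorem mem_HH (g g' : GG) : g * g'⁻¹ ∈ HH ↔ pt g = pt g' := by
  unfold HH pt
  rw [Subgroup.mem_comap, MulAction.mem_stabilizer_iff, map_mul, map_inv]
  have h : (Phi g * (Phi g')⁻¹) • ([] : List D) = Phi g ((Phi g')⁻¹ []) := rfl
  rw [h, Equiv.Perm.inv_eq_iff_eq]
  exact eq_comm

theorem pt_one : pt 1 = [] := by
  unfold pt
  rw [map_one]
  rfl

theorem pt_mul (g : GG) (a : Gen) : pt (g * gn a) = act a (pt g) := by
  unfold pt
  rw [map_mul, mul_inv_rev, Phi_gn]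
  rfl

theorem pt_prod (g : GG) (w : List Gen) : pt (g * (w.map gn).prod) = run w (pt g) := by
  induction w generalizing g with
  | nil => simp [run]
  | cons a w ih =>
    rw [List.map_cons, List.prod_cons, ← mul_assoc, ih, pt_mul]
    rfl

theorem pt_prod' (w : List Gen) : pt ((w.map gn).prod) = run w [] := by
  have := pt_prod 1 w
  rwa [one_mul, pt_one] at this

theorem closure_gn : Submonoid.closure (Set.range gn) = ⊤ := by
  rw [eq_top_iff]
  intro g _
  induction g using Monoid.CoprodI.induction_on with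
  | one => exact Submonoid.one_mem _
  | of a m =>
    have h : ∀ z : Multiplicative (ZMod 2), z = 1 ∨ z = Multiplicative.ofAdd 1 := by decide
    rcases h m with rfl | rfl
    · rw [map_one]
      exact Submonoid.one_mem _
    · exact Submonoid.subset_closure ⟨a, rfl⟩
  | mul x y hx hy => exact Submonoid.mul_mem _ (hx trivial) (hy trivial)

theorem automatic' : IsAutomatic HH gn NF where
  gen := closure_gn
  reg := ⟨_, inferInstance, nfDFA, nfDFA_acc⟩
  surj g := by
    refine ⟨vw false (pt g), ⟨_, rfl⟩, ?_⟩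
    rw [mem_HH, pt_prod', run_vw_nil]
  mult b := by
    obtain ⟨σ, i, M, hM⟩ := graph_regular b
    refine ⟨σ, i, M, fun x => ?_⟩
    rw [hM x]
    have key : ∀ l m : List D, (((vw false l).map gn).prod * b.elim 1 gn *
        (((vw false m).map gn).prod)⁻¹ ∈ HH ↔ b.elim l (fun a => act a l) = m) := by
      intro l m
      rw [mem_HH, pt_prod', run_vw_nil]
      cases b with
      | none => rw [Option.elim_none, Option.elim_none, mul_one, pt_prod', run_vw_nil]
      | some a => rw [Option.elim_some, Option.elim_some, pt_mul, pt_prod', run_vw_nil]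
    constructor
    · rintro ⟨l, rfl⟩
      refine ⟨vw false l, ⟨_, rfl⟩, vw false _, ⟨_, rfl⟩, (key l _).2 rfl, ?_⟩
      rw [pz_eq]
      rfl
    · rintro ⟨u, ⟨l, rfl⟩, v, ⟨m, rfl⟩, h, rfl⟩
      refine ⟨l, ?_⟩
      rw [(key l m).1 h, pz_eq]
      rfl

theorem length_aV_le (p : Bool) (d : D) (q : Bool) (l : List D) :
    (aV p d q l).length ≤ l.length + 1 := by
  induction l generalizing q with
  | nil =>
    rw [aV]
    split_ifs <;> simp
  | cons a l ih =>
    rw [aV]
    split_ifs
    · simp
    · simp only [List.length_cons]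
      have := ih (!q)
      omega

theorem length_aV_eq (p : Bool) (d : D) (q : Bool) (l : List D)
    (h : (aV p d q l).length = l.length + 1) : p = if l.length % 2 = 0 then q else !q := by
  induction l generalizing q with
  | nil =>
    rw [aV] at h
    by_cases h1 : q = p
    · simp [h1]
    · rw [if_neg h1] at h
      simp at h
  | cons a l ih =>
    rw [aV] at h
    by_cases h1 : q = p ∧ a = d ∧ l = []
    · rw [if_pos h1] at h
      simp at h
    · rw [if_neg h1] at h
      simp only [List.length_cons, Nat.add_right_cancel_iff] at h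
      rw [ih (!q) h, List.length_cons]
      by_cases h3 : l.length % 2 = 0
      · have : (l.length + 1) % 2 ≠ 0 := by omega
        simp [h3, this]
      · have : (l.length + 1) % 2 = 0 := by omega
        simp [h3, this]

theorem length_act_le (a : Gen) (l : List D) : (act a l).length ≤ l.length + 1 := by
  cases a with
  | W => simp [act, aW]
  | C => simp [act, aC]
  | J => simp [act, length_aJ]
  | V p d => exact length_aV_le p d false l

theorem length_act_eq (a : Gen) (l : List D) (h : (act a l).length = l.length + 1) :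
    ∃ d, a = Gen.V (if l.length % 2 = 0 then false else true) d := by
  cases a with
  | W => simp [act, aW] at h
  | C => simp [act, aC] at h
  | J => simp [act, length_aJ] at h
  | V p d => exact ⟨d, by rw [length_aV_eq p d false l h]; rfl⟩

theorem length_run_le (w : List Gen) (l : List D) : (run w l).length ≤ l.length + w.length := by
  induction w generalizing l with
  | nil => simp [run]
  | cons a w ih =>
    have h1 : run (a :: w) l = run w (act a l) := rfl
    have h2 := ih (act a l)
    have h3 := length_act_le a l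
    rw [h1, List.length_cons]
    omega

theorem geo (w : List Gen) (m : List D) (h : (run w m).length = m.length + w.length) :
    ∃ l, w = vw (if m.length % 2 = 0 then false else true) l := by
  induction w generalizing m with
  | nil => exact ⟨[], rfl⟩
  | cons a w ih =>
    have h1 : run (a :: w) m = run w (act a m) := rfl
    have h2 := length_run_le w (act a m)
    have h3 := length_act_le a m
    rw [h1, List.length_cons] at h
    have h4 : (act a m).length = m.length + 1 := by omega
    obtain ⟨d, rfl⟩ := length_act_eq a m h4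
    obtain ⟨l, rfl⟩ := ih (act (Gen.V (if m.length % 2 = 0 then false else true) d) m) (by omega)
    refine ⟨d :: l, ?_⟩
    rw [vw, h4]
    by_cases h5 : m.length % 2 = 0
    · have : (m.length + 1) % 2 ≠ 0 := by omega
      simp [h5, this]
    · have : (m.length + 1) % 2 = 0 := by omega
      simp [h5, this]

theorem geodesics_eq : geodesics HH gn = NF := by
  ext w
  constructor
  · intro hw
    have h1 := hw (vw false (run w [])) (by
      rw [mem_HH, pt_prod', pt_prod', run_vw_nil])
    rw [length_vw] at h1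
    have h2 := length_run_le w []
    obtain ⟨l, hl⟩ := geo w [] (by simp only [List.length_nil, zero_add] at h2 ⊢; omega)
    exact ⟨l, by rw [hl]; rfl⟩
  · rintro ⟨l, rfl⟩ v hv
    rw [mem_HH, pt_prod', pt_prod', run_vw_nil] at hv
    rw [length_vw, hv]
    simpa using length_run_le v []

theorem automatic : IsAutomatic HH gn (geodesics HH gn) := by
  rw [geodesics_eq]
  exact automatic'

theorem unique_rep (u v : List Gen) (hu : u ∈ geodesics HH gn) (hv : v ∈ geodesics HH gn)
    (h : (u.map gn).prod * ((v.map gn).prod)⁻¹ ∈ HH) : u = v := by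
  rw [geodesics_eq] at hu hv
  obtain ⟨l, rfl⟩ := hu
  obtain ⟨m, rfl⟩ := hv
  rw [mem_HH, pt_prod', pt_prod', run_vw_nil, run_vw_nil] at h
  rw [h]

theorem not_embeds : ¬ CoarselyEmbeds HH := by
  classical
  rintro ⟨E, i1, i2, i3, f, h1, h2, h3⟩
  have inv : ∀ g g' : GG, pt g = pt g' → f g = f g' := by
    intro g g' h
    have := h1 _ ((mem_HH g g').2 h) g'
    rwa [inv_mul_cancel_right] at this
  obtain ⟨C, hC⟩ := h2 {(w1.map gn).prod, (w2.map gn).prod, (w3.map gn).prod, (w4.map gn).prod}
  have hC0 : 0 ≤ C := (norm_nonneg _).trans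
    (hC 1 (w1.map gn).prod (Finset.mem_insert_self _ _))
  obtain ⟨K, hK⟩ := h3 (128 * (C + 1))
  let t := K.card + 1
  let g : ZMod (2 ^ t) × ZMod (2 ^ t) → GG := fun z => ((vw false (enc t z)).map gn).prod
  have hg : ∀ z, pt (g z) = enc t z := by
    intro z
    show pt (((vw false (enc t z)).map gn).prod) = _
    rw [pt_prod', run_vw_nil]
  let F : ZMod (2 ^ t) × ZMod (2 ^ t) → E := fun z => f (g z)
  have word : ∀ (w : List Gen) (T : ZMod (2 ^ t) × ZMod (2 ^ t) ≃ ZMod (2 ^ t) × ZMod (2 ^ t)),
      (∀ z, run w (enc t z) = enc t (T z)) →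
      (w.map gn).prod ∈ ({(w1.map gn).prod, (w2.map gn).prod, (w3.map gn).prod,
        (w4.map gn).prod} : Finset GG) →
      ∑ z, ‖F (T z) - F z‖ ^ 2 ≤ ((2 ^ t : ℕ) : ℝ) ^ 2 * C ^ 2 := by
    intro w T hT hw
    have e1 : ∀ z, ‖F (T z) - F z‖ ^ 2 ≤ C ^ 2 := by
      intro z
      have e2 : f (g z * (w.map gn).prod) = F (T z) := by
        apply inv
        rw [pt_prod, hg, hT, hg]
      have e3 := hC (g z) _ hw
      rw [e2, norm_sub_rev] at e3
      exact pow_le_pow_left₀ (norm_nonneg _) e3 2
    calc ∑ z, ‖F (T z) - F z‖ ^ 2 ≤ ∑ _z : ZMod (2 ^ t) × ZMod (2 ^ t), C ^ 2 :=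
          Finset.sum_le_sum fun z _ => e1 z
      _ = ((2 ^ t : ℕ) : ℝ) ^ 2 * C ^ 2 := by
          rw [Finset.sum_const, nsmul_eq_mul, Finset.card_univ, Fintype.card_prod, ZMod.card]
          push_cast
          ring
  have G := gap_vec F (word w1 _ (run_w1 t) (by simp)) (word w2 _ (run_w2 t) (by simp))
    (word w3 _ (run_w3 t) (by simp)) (word w4 _ (run_w4 t) (by simp))
  have low : ∀ z, (((2 ^ t : ℕ) : ℝ) ^ 2 - K.card) * (128 * (C + 1)) ^ 2 ≤
      ∑ w, ‖F z - F w‖ ^ 2 := by
    intro z
    let I := K.image fun k => dec t (pt (g z * k))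
    have e1 : ∀ w, w ∉ I → (128 * (C + 1)) ^ 2 ≤ ‖F z - F w‖ ^ 2 := by
      intro w hw
      apply pow_le_pow_left₀ (by positivity)
      apply hK
      intro k hk hc
      apply hw
      rw [mem_HH, hg] at hc
      refine Finset.mem_image.2 ⟨k, hk, ?_⟩
      rw [hc, dec_enc]
    calc (((2 ^ t : ℕ) : ℝ) ^ 2 - K.card) * (128 * (C + 1)) ^ 2
        ≤ ((Finset.univ \ I).card : ℝ) * (128 * (C + 1)) ^ 2 := by
          apply mul_le_mul_of_nonneg_right _ (by positivity)
          have e2 : I.card ≤ K.card := Finset.card_image_le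
          have e3 : (Finset.univ \ I).card + I.card = (2 ^ t) * (2 ^ t) := by
            rw [Finset.card_sdiff_add_card_eq_card (Finset.subset_univ _), Finset.card_univ,
              Fintype.card_prod, ZMod.card]
          have e4 : (((Finset.univ \ I).card : ℕ) : ℝ) + I.card = ((2 ^ t : ℕ) : ℝ) ^ 2 := by
            rw [sq]; exact_mod_cast e3
          have e5 : (I.card : ℝ) ≤ K.card := by exact_mod_cast e2
          linarith
      _ = ∑ _w ∈ Finset.univ \ I, (128 * (C + 1)) ^ 2 := by
          rw [Finset.sum_const, nsmul_eq_mul]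
      _ ≤ ∑ w ∈ Finset.univ \ I, ‖F z - F w‖ ^ 2 :=
          Finset.sum_le_sum fun w hw => e1 w (Finset.mem_sdiff.1 hw).2
      _ ≤ ∑ w, ‖F z - F w‖ ^ 2 :=
          Finset.sum_le_sum_of_subset_of_nonneg (Finset.subset_univ _)
            (fun _ _ _ => by positivity)
  have tot : ((2 ^ t : ℕ) : ℝ) ^ 2 * ((((2 ^ t : ℕ) : ℝ) ^ 2 - K.card) * (128 * (C + 1)) ^ 2) ≤
      ∑ z, ∑ w, ‖F z - F w‖ ^ 2 := by
    calc ((2 ^ t : ℕ) : ℝ) ^ 2 * ((((2 ^ t : ℕ) : ℝ) ^ 2 - K.card) * (128 * (C + 1)) ^ 2)
        = ∑ _z : ZMod (2 ^ t) × ZMod (2 ^ t),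
            (((2 ^ t : ℕ) : ℝ) ^ 2 - K.card) * (128 * (C + 1)) ^ 2 := by
          rw [Finset.sum_const, nsmul_eq_mul, Finset.card_univ, Fintype.card_prod, ZMod.card]
          push_cast
          ring
      _ ≤ _ := Finset.sum_le_sum fun z _ => low z
  have hN : (K.card : ℝ) + 1 ≤ ((2 ^ t : ℕ) : ℝ) := by
    have : t < 2 ^ t := Nat.lt_two_pow_self
    have e1 : K.card + 1 ≤ 2 ^ t := this.le
    exact_mod_cast e1
  set N : ℝ := ((2 ^ t : ℕ) : ℝ) with hNdef
  have hk0 : (0 : ℝ) ≤ K.card := by positivity
  have hhalf : N ^ 2 / 2 ≤ N ^ 2 - K.card := by nlinarith [sq_nonneg ((K.card : ℝ) - 1)]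
  have hNpos : 0 < N := by linarith
  have e1 : N ^ 2 * (N ^ 2 / 2 * (128 * (C + 1)) ^ 2) ≤ 8192 * N ^ 2 * (N ^ 2 * C ^ 2) := by
    refine le_trans ?_ (tot.trans G)
    apply mul_le_mul_of_nonneg_left _ (by positivity)
    exact mul_le_mul_of_nonneg_right hhalf (by positivity)
  have e2 : N ^ 2 * N ^ 2 * (8192 * (C + 1) ^ 2) ≤ N ^ 2 * N ^ 2 * (8192 * C ^ 2) := by
    linarith
  have e3 := le_of_mul_le_mul_left e2 (by positivity)
  nlinarith

end Pool.Agent.H56.Auto
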