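import Mathlib

set_option autoImplicit false

namespace Pool.Agent.H56.Auto

/-- The synchronous padded pair of two words (as in the frozen statement `S00739`). -/
def padded {A : Type} (u v : List A) : List (Option A × Option A) :=
  List.zip (u.map some ++ List.replicate (v.length - u.length) none)
    (v.map some ++ List.replicate (u.length - v.length) none)

/-- `π : A → G` and the language `L` over `A` are an automatic structure for the right cosets
`H g` of the subgroup `H` of `G`: `π(A)` generates `G` as a monoid, `L` is regular, every right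
coset is `H π(w)` for some `w ∈ L`, and for `b = none` (equality) and every generator `b = some a`
the set of padded pairs `(u, v)` of words of `L` with `H π(u) b = H π(v)` is regular.
For `H = ⊥` this is exactly the hypothesis of the frozen statement `S00739`. -/
structure IsAutomatic {G : Type} [Group G] (H : Subgroup G) {A : Type} (π : A → G)
    (L : Language A) : Prop where
  gen : Submonoid.closure (Set.range π) = ⊤
  reg : ∃ (σ : Type) (_ : Fintype σ) (M : DFA A σ), M.accepts = L
  surj : ∀ g : G, ∃ w ∈ L, (w.map π).prod * g⁻¹ ∈ H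
  mult : ∀ b : Option A, ∃ (σ : Type) (_ : Fintype σ) (M : DFA (Option A × Option A) σ),
    ∀ x : List (Option A × Option A), x ∈ M.accepts ↔
      ∃ u ∈ L, ∃ v ∈ L, (u.map π).prod * b.elim 1 π * ((v.map π).prod)⁻¹ ∈ H ∧ x = padded u v

/-- The space of right cosets `H g` (with the coarse structure in which `H g` and `H g k` are
close for `k` in a finite set: the Schreier coset graph) embeds coarsely into a real Hilbert
space. The map is written as a left `H`-invariant function on `G`.
For `H = ⊥` this is exactly the conclusion of the frozen statement `S00739`. -/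
def CoarselyEmbeds {G : Type} [Group G] (H : Subgroup G) : Prop :=
  ∃ (E : Type) (_ : NormedAddCommGroup E) (_ : InnerProductSpace ℝ E) (_ : CompleteSpace E)
    (f : G → E), (∀ h ∈ H, ∀ g, f (h * g) = f g) ∧
    (∀ K : Finset G, ∃ C : ℝ, ∀ g, ∀ k ∈ K, ‖f g - f (g * k)‖ ≤ C) ∧
    (∀ S : ℝ, ∃ K : Finset G, ∀ g g', (∀ k ∈ K, g * k * g'⁻¹ ∉ H) → S ≤ ‖f g - f g'‖)

/-- The free product of groups of order two, one for each `a : A`. -/
abbrev FreeInvolutions (A : Type) : Type :=
  Monoid.CoprodI (fun _ : A => Multiplicative (ZMod 2))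

/-- The generator of the free factor with index `a`; it is an involution. -/
def letter {A : Type} (a : A) : FreeInvolutions A :=
  Monoid.CoprodI.of (M := fun _ : A => Multiplicative (ZMod 2)) (i := a) (Multiplicative.ofAdd 1)

/-- The language of all geodesic words of the coset system: the words `w` which are shortest
among all words `v` with `H π(v) = H π(w)`, i.e. the labels of the geodesics from the base point
`H` in the Schreier coset graph (when the generators are involutions). -/
def geodesics {G : Type} [Group G] (H : Subgroup G) {A : Type} (π : A → G) : Language A :=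
  {w | ∀ v : List A, (w.map π).prod * ((v.map π).prod)⁻¹ ∈ H → w.length ≤ v.length}

/-- for the trivial subgroup: the conclusion of `S00739` -/
theorem coarselyEmbeds_bot (G : Type) [Group G] : CoarselyEmbeds (⊥ : Subgroup G) ↔
    ∃ (E : Type) (_ : NormedAddCommGroup E) (_ : InnerProductSpace ℝ E) (_ : CompleteSpace E)
      (f : G → E),
      (∀ K : Finset G, ∃ C : ℝ, ∀ g h : G, g⁻¹ * h ∈ K → ‖f g - f h‖ ≤ C) ∧
      (∀ S : ℝ, ∃ K : Finset G, ∀ g h : G, g⁻¹ * h ∉ K → S ≤ ‖f g - f h‖) := by
  constructor
  · rintro ⟨E, i1, i2, i3, f, -, h2, h3⟩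
    refine ⟨E, i1, i2, i3, f, ?_, ?_⟩
    · intro K
      obtain ⟨C, hC⟩ := h2 K
      refine ⟨C, fun g h hk => ?_⟩
      have := hC g _ hk
      rwa [mul_inv_cancel_left] at this
    · intro S
      obtain ⟨K, hK⟩ := h3 S
      refine ⟨K, fun g h hk => hK g h fun k hk2 => ?_⟩
      rw [Subgroup.mem_bot, mul_inv_eq_one]
      rintro rfl
      exact hk (by simpa using hk2)
  · rintro ⟨E, i1, i2, i3, f, h2, h3⟩
    refine ⟨E, i1, i2, i3, f, ?_, ?_, ?_⟩
    · intro h hh g
      rw [Subgroup.mem_bot] at hh
      rw [hh, one_mul]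
    · intro K
      obtain ⟨C, hC⟩ := h2 K
      exact ⟨C, fun g k hk => hC g (g * k) (by simpa using hk)⟩
    · intro S
      obtain ⟨K, hK⟩ := h3 S
      refine ⟨K, fun g g' hk => hK g g' fun hk2 => hk _ hk2 ?_⟩
      rw [Subgroup.mem_bot]
      group

/-- for the trivial subgroup: the hypothesis of `S00739` -/
theorem isAutomatic_bot (G : Type) [Group G] (A : Type) (π : A → G) (L : Language A) :
    IsAutomatic (⊥ : Subgroup G) π L ↔
      Submonoid.closure (Set.range π) = ⊤ ∧
      (∃ (σ : Type) (_ : Fintype σ) (M : DFA A σ), M.accepts = L) ∧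
      (∀ g : G, ∃ w ∈ L, (w.map π).prod = g) ∧
      (∀ b : Option A, ∃ (σ : Type) (_ : Fintype σ) (M : DFA (Option A × Option A) σ),
        ∀ x : List (Option A × Option A), x ∈ M.accepts ↔
          ∃ u ∈ L, ∃ v ∈ L, (u.map π).prod * b.elim 1 π = (v.map π).prod ∧
            x = List.zip (u.map some ++ List.replicate (v.length - u.length) none)
                         (v.map some ++ List.replicate (u.length - v.length) none)) := by
  constructor
  · rintro ⟨h1, h2, h3, h4⟩
    refine ⟨h1, h2, ?_, ?_⟩
    · intro g
      obtain ⟨w, hw, h⟩ := h3 g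
      exact ⟨w, hw, by rwa [Subgroup.mem_bot, mul_inv_eq_one] at h⟩
    · intro b
      obtain ⟨σ, i, M, h⟩ := h4 b
      refine ⟨σ, i, M, fun x => ?_⟩
      rw [h x]
      simp only [Subgroup.mem_bot, mul_inv_eq_one, padded]
  · rintro ⟨h1, h2, h3, h4⟩
    refine ⟨h1, h2, ?_, ?_⟩
    · intro g
      obtain ⟨w, hw, h⟩ := h3 g
      exact ⟨w, hw, by rwa [Subgroup.mem_bot, mul_inv_eq_one]⟩
    · intro b
      obtain ⟨σ, i, M, h⟩ := h4 b
      refine ⟨σ, i, M, fun x => ?_⟩
      rw [h x]
      simp only [Subgroup.mem_bot, mul_inv_eq_one, padded]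

end Pool.Agent.H56.Auto
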