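import Mathlib

set_option autoImplicit false
set_option linter.unusedSectionVars false

namespace Pool.Agent.H56.Auto

/-- digits: two tracks of bits -/
abbrev D := Bool × Bool

/-- swap the tracks -/
def aW (l : List D) : List D := l.map Prod.swap

/-- complement the first track -/
def aC (l : List D) : List D := l.map fun d => (!d.1, d.2)

/-- majority -/
def maj (a b c : Bool) : Bool := (a && b) || (a && c) || (b && c)

/-- subtract the first track (and the borrow) from the second one, result on the first track -/
def aJ : Bool → List D → List D
  | _, [] => []
  | b, d :: l => (xor d.2 (xor d.1 b), d.2) :: aJ (maj (!d.2) d.1 b) l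

/-- append the digit `d` to the words whose length has parity `p`, remove it otherwise;
`q` is the parity of the number of digits already passed -/
def aV (p : Bool) (d : D) : Bool → List D → List D
  | q, [] => if q = p then [d] else []
  | q, a :: l => if q = p ∧ a = d ∧ l = [] then [] else a :: aV p d (!q) l

theorem aW_aW (l : List D) : aW (aW l) = l := by
  simp [aW]

theorem aC_aC (l : List D) : aC (aC l) = l := by
  simp [aC, Function.comp_def]

theorem aJ_aJ (b : Bool) (l : List D) : aJ b (aJ b l) = l := by
  induction l generalizing b with
  | nil => rfl
  | cons d l ih =>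
    obtain ⟨x, y⟩ := d
    have h1 : xor y (xor (xor y (xor x b)) b) = x := by
      cases x <;> cases y <;> cases b <;> rfl
    have h2 : maj (!y) (xor y (xor x b)) b = maj (!y) x b := by
      cases x <;> cases y <;> cases b <;> rfl
    simp only [aJ, h1, h2, ih]

theorem aV_ne (p : Bool) (d : D) (q : Bool) (l : List D) (hl : l ≠ []) (h : aV p d q l = []) :
    q = p ∧ l = [d] := by
  cases l with
  | nil => exact absurd rfl hl
  | cons a l =>
    simp only [aV] at h
    split_ifs at h with h1
    exact ⟨h1.1, by rw [h1.2.1, h1.2.2]⟩

theorem aV_aV (p : Bool) (d : D) (q : Bool) (l : List D) : aV p d q (aV p d q l) = l := by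
  induction l generalizing q with
  | nil =>
    by_cases h : q = p
    · simp [aV, h]
    · simp [aV, h]
  | cons a l ih =>
    by_cases h : q = p ∧ a = d ∧ l = []
    · obtain ⟨h1, h2, h3⟩ := h
      subst h1 h2 h3
      simp [aV]
    · rw [aV, if_neg h]
      have h2 : ¬ (q = p ∧ a = d ∧ aV p d (!q) l = []) := by
        rintro ⟨h3, h4, h5⟩
        by_cases hl : l = []
        · exact h ⟨h3, h4, hl⟩
        · have := (aV_ne p d _ l hl h5).1
          rw [h3] at this
          cases p <;> simp at this
      rw [aV, if_neg h2, ih]

/-- the generators -/
inductive Gen
  | W
  | C
  | J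
  | V (p : Bool) (d : D)
  deriving DecidableEq, Fintype

/-- the action of the generators on words -/
def act : Gen → List D → List D
  | .W => aW
  | .C => aC
  | .J => aJ false
  | .V p d => aV p d false

theorem act_act (a : Gen) (l : List D) : act a (act a l) = l := by
  cases a with
  | W => exact aW_aW l
  | C => exact aC_aC l
  | J => exact aJ_aJ false l
  | V p d => exact aV_aV p d false l

/-- the normal form of a word of digits -/
def vw : Bool → List D → List Gen
  | _, [] => []
  | p, d :: l => Gen.V p d :: vw (!p) l

theorem vw_inj {p : Bool} {l m : List D} (h : vw p l = vw p m) : l = m := by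
  induction l generalizing p m with
  | nil => cases m with
    | nil => rfl
    | cons a m => simp [vw] at h
  | cons d l ih => cases m with
    | nil => simp [vw] at h
    | cons a m =>
      simp only [vw, List.cons.injEq, Gen.V.injEq, true_and] at h
      rw [h.1, ih h.2]

theorem length_vw (p : Bool) (l : List D) : (vw p l).length = l.length := by
  induction l generalizing p with
  | nil => rfl
  | cons d l ih => simp [vw, ih]

/-- action of a word of generators, read from left to right -/
def run (w : List Gen) (l : List D) : List D := w.foldl (fun x a => act a x) l

theorem aV_append (p : Bool) (d : D) (q : Bool) (l : List D)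
    (h : (if l.length % 2 = 0 then q else !q) = p) : aV p d q l = l ++ [d] := by
  induction l generalizing q with
  | nil =>
    have : q = p := by simpa using h
    simp [aV, this]
  | cons a l ih =>
    have h2 : ¬ (q = p ∧ a = d ∧ l = []) := by
      rintro ⟨h3, h4, h5⟩
      subst h5
      simp at h
      rw [← h3] at h
      cases q <;> simp at h
    rw [aV, if_neg h2, ih]
    · rfl
    · rw [← h, List.length_cons]
      by_cases h3 : l.length % 2 = 0
      · have : (l.length + 1) % 2 ≠ 0 := by omega
        simp [h3, this]
      · have : (l.length + 1) % 2 = 0 := by omega
        simp [h3, this]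

theorem run_vw (m : List D) (l : List D) (p : Bool)
    (h : (if m.length % 2 = 0 then false else true) = p) : run (vw p l) m = m ++ l := by
  induction l generalizing p m with
  | nil => simp [vw, run]
  | cons d l ih =>
    have h1 : run (vw p (d :: l)) m = run (vw (!p) l) (act (Gen.V p d) m) := rfl
    have h2 : act (Gen.V p d) m = m ++ [d] := aV_append p d false m (by simpa using h)
    rw [h1, h2, ih]
    · simp
    · rw [← h, List.length_append, List.length_singleton]
      by_cases h3 : m.length % 2 = 0
      · have : (m.length + 1) % 2 ≠ 0 := by omega
        simp [h3, this]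
      · have : (m.length + 1) % 2 = 0 := by omega
        simp [h3, this]

theorem run_vw_nil (l : List D) : run (vw false l) [] = l := by
  rw [run_vw [] l false (by simp)]
  rfl

end Pool.Agent.H56.Auto
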