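import Pool.Agent.H56.Auto.Ping

set_option autoImplicit false
set_option linter.unusedSectionVars false

open Finset ComplexConjugate

namespace Pool.Agent.H56.Auto

variable {N : ℕ} [NeZero N]

/-- the standard character of `ZMod N` -/
noncomputable abbrev e (x : ZMod N) : ℂ := ZMod.stdAddChar x

theorem e_add (x y : ZMod N) : e (x + y) = e x * e y := AddChar.map_add_eq_mul _ _ _

theorem norm_e (x : ZMod N) : ‖e x‖ = 1 := by
  rw [e, ZMod.stdAddChar_apply]
  exact Circle.norm_coe _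

theorem sum_e (b : ZMod N) : ∑ x : ZMod N, e (x * b) = if b = 0 then (N : ℂ) else 0 := by
  rw [AddChar.sum_mulShift b (ZMod.isPrimitive_stdAddChar N), ZMod.card]
  split_ifs <;> simp

/-- dot product -/
def dot (ξ z : ZMod N × ZMod N) : ZMod N := ξ.1 * z.1 + ξ.2 * z.2

theorem sum_dot (d : ZMod N × ZMod N) :
    ∑ ξ : ZMod N × ZMod N, e (dot ξ d) = if d = 0 then (N : ℂ) ^ 2 else 0 := by
  rw [Fintype.sum_prod_type]
  have : ∀ x y : ZMod N, e (dot (x, y) d) = e (x * d.1) * e (y * d.2) := by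
    intro x y
    rw [← e_add]
    rfl
  simp only [this]
  rw [← Finset.sum_mul_sum, sum_e, sum_e]
  by_cases h1 : d.1 = 0
  · by_cases h2 : d.2 = 0
    · have : d = 0 := Prod.ext h1 h2
      simp [this, sq]
    · have : d ≠ 0 := fun h => h2 (by rw [h]; rfl)
      simp [h2, this]
  · have : d ≠ 0 := fun h => h1 (by rw [h]; rfl)
    simp [h1, this]

/-- the unnormalised Fourier transform -/
noncomputable def ft (f : ZMod N × ZMod N → ℂ) (ξ : ZMod N × ZMod N) : ℂ :=
  ∑ z, e (dot ξ z) * f z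

theorem parseval (f : ZMod N × ZMod N → ℂ) :
    ∑ ξ, ‖ft f ξ‖ ^ 2 = (N : ℝ) ^ 2 * ∑ z, ‖f z‖ ^ 2 := by
  have h : (∑ ξ, ft f ξ * conj (ft f ξ)) = (N : ℂ) ^ 2 * ∑ z, f z * conj (f z) := by
    have h1 : ∀ ξ, ft f ξ * conj (ft f ξ) =
        ∑ z, ∑ w, e (dot ξ (z - w)) * (f z * conj (f w)) := by
      intro ξ
      unfold ft
      rw [map_sum, Finset.sum_mul_sum]
      apply Finset.sum_congr rfl
      intro z _
      apply Finset.sum_congr rfl
      intro w _
      have h2 : dot ξ (z - w) = dot ξ z + -(dot ξ w) := by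
        simp only [dot, Prod.fst_sub, Prod.snd_sub]; ring
      rw [h2, e_add]
      have h3 : e (-(dot ξ w)) = conj (e (dot ξ w)) := AddChar.map_neg_eq_conj _ _
      rw [h3, map_mul]
      ring
    simp only [h1]
    rw [Finset.sum_comm]
    rw [Finset.mul_sum]
    apply Finset.sum_congr rfl
    intro z _
    rw [Finset.sum_comm]
    simp only [← Finset.sum_mul, sum_dot, sub_eq_zero]
    simp
  have h' := congrArg Complex.re h
  have g : ∀ c : ℂ, c * conj c = ((‖c‖ ^ 2 : ℝ) : ℂ) := by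
    intro c
    rw [Complex.mul_conj, Complex.normSq_eq_norm_sq]
  simp only [g] at h'
  rw [← Complex.ofReal_sum, ← Complex.ofReal_sum] at h'
  have h2 : ((N : ℂ) ^ 2 * ((∑ z, ‖f z‖ ^ 2 : ℝ) : ℂ)).re = (N : ℝ) ^ 2 * ∑ z, ‖f z‖ ^ 2 := by
    rw [← Complex.ofReal_natCast, ← Complex.ofReal_pow, ← Complex.ofReal_mul, Complex.ofReal_re]
  rw [h2, Complex.ofReal_re] at h'
  exact h'

theorem ft_sub (f g : ZMod N × ZMod N → ℂ) (ξ : ZMod N × ZMod N) :
    ft (fun z => f z - g z) ξ = ft f ξ - ft g ξ := by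
  unfold ft
  rw [← Finset.sum_sub_distrib]
  apply Finset.sum_congr rfl
  intro z _
  ring

theorem ft_comp (f : ZMod N × ZMod N → ℂ) (T : ZMod N × ZMod N ≃ ZMod N × ZMod N)
    (ξ η : ZMod N × ZMod N) (c : ZMod N) (h : ∀ z, dot ξ z = dot η (T z) + c) :
    ft (fun z => f (T z)) ξ = e c * ft f η := by
  unfold ft
  rw [← Equiv.sum_comp T (fun z => e (dot η z) * f z), Finset.mul_sum]
  apply Finset.sum_congr rfl
  intro z _
  rw [h, e_add]
  ring

/-- translations -/
def tr (v : ZMod N × ZMod N) : ZMod N × ZMod N ≃ ZMod N × ZMod N := Equiv.addRight v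

/-- the two shears by two -/
def sh1 : ZMod N × ZMod N ≃ ZMod N × ZMod N where
  toFun z := (z.1 + 2 * z.2, z.2)
  invFun z := (z.1 - 2 * z.2, z.2)
  left_inv z := by ext <;> simp
  right_inv z := by ext <;> simp

def sh2 : ZMod N × ZMod N ≃ ZMod N × ZMod N where
  toFun z := (z.1, z.2 + 2 * z.1)
  invFun z := (z.1, z.2 - 2 * z.1)
  left_inv z := by ext <;> simp
  right_inv z := by ext <;> simp

theorem ft_tr (f : ZMod N × ZMod N → ℂ) (v ξ : ZMod N × ZMod N) :
    ft (fun z => f (tr v z)) ξ = e (-(dot ξ v)) * ft f ξ := by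
  apply ft_comp
  intro z
  simp only [tr, Equiv.coe_addRight, dot, Prod.fst_add, Prod.snd_add]
  ring

theorem ft_sh1 (f : ZMod N × ZMod N → ℂ) (ξ : ZMod N × ZMod N) :
    ft (fun z => f (sh1 z)) ξ = ft f (Sm ξ.swap).swap := by
  rw [ft_comp f sh1 ξ (Sm ξ.swap).swap 0]
  · simp
  · intro z
    simp only [dot, sh1, Sm, Equiv.coe_fn_mk, Prod.fst_swap, Prod.snd_swap]
    ring

theorem ft_sh2 (f : ZMod N × ZMod N → ℂ) (ξ : ZMod N × ZMod N) :
    ft (fun z => f (sh2 z)) ξ = ft f (Sm ξ) := by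
  rw [ft_comp f sh2 ξ (Sm ξ) 0]
  · simp
  · intro z
    simp only [dot, sh2, Sm, Equiv.coe_fn_mk]
    ring

theorem e_far {x : ZMod N} (hx : (N : ℤ) ≤ 8 * |rp x|) : 1 ≤ 4 * ‖e (-x) - 1‖ ^ 2 := by
  have hN : (0 : ℝ) < N := by exact_mod_cast NeZero.pos N
  have h1 : e (-x) = Complex.exp (Complex.I * ((-(2 * Real.pi * (rp x) / N) : ℝ) : ℂ)) := by
    have : (-x : ZMod N) = (((-(rp x) : ℤ)) : ZMod N) := by
      push_cast [rp_cast]
      rfl
    rw [e, this, ZMod.stdAddChar_coe]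
    congr 1
    push_cast
    ring
  rw [h1, Complex.norm_exp_I_mul_ofReal_sub_one]
  have h2 : -(2 * Real.pi * (rp x) / N) / 2 = -(Real.pi * (rp x) / N) := by ring
  rw [h2, Real.sin_neg, mul_neg, norm_neg, norm_mul, Real.norm_eq_abs, Real.norm_eq_abs]
  have hb := ((ZMod.valMinAbs_spec x (rp x)).1 rfl).2
  have hb' : 2 * |rp x| ≤ N := by
    rcases abs_cases (rp x) with h | h <;> have := hb.1 <;> have := hb.2 <;> omega
  have h3 : |Real.sin (Real.pi * (rp x) / N)| = Real.sin (Real.pi * |(rp x : ℝ)| / N) := by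
    rcases le_total 0 (rp x : ℝ) with h | h
    · rw [abs_of_nonneg h, abs_of_nonneg]
      apply Real.sin_nonneg_of_nonneg_of_le_pi
      · positivity
      · rw [div_le_iff₀ hN]
        have : (rp x : ℝ) ≤ N := by
          have h5 : rp x ≤ N := by
            have := le_abs_self (rp x)
            have := abs_nonneg (rp x)
            omega
          exact_mod_cast h5
        exact mul_le_mul_of_nonneg_left this Real.pi_pos.le
    · rw [abs_of_nonpos h, mul_neg, neg_div, Real.sin_neg, abs_of_nonpos]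
      apply Real.sin_nonpos_of_nonpos_of_neg_pi_le
      · apply div_nonpos_of_nonpos_of_nonneg _ hN.le
        exact mul_nonpos_of_nonneg_of_nonpos Real.pi_pos.le h
      · rw [neg_le, ← neg_div, div_le_iff₀ hN, ← mul_neg]
        have : -(rp x : ℝ) ≤ N := by
          have h5 : -rp x ≤ N := by
            have := neg_abs_le (rp x)
            have := abs_nonneg (rp x)
            omega
          exact_mod_cast h5
        exact mul_le_mul_of_nonneg_left this Real.pi_pos.le
  rw [h3]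
  have h4 : (N : ℝ) ≤ 8 * |(rp x : ℝ)| := by exact_mod_cast hx
  have h5 : 2 * |(rp x : ℝ)| ≤ N := by exact_mod_cast hb'
  have h6 := Real.mul_le_sin (x := Real.pi * |(rp x : ℝ)| / N) (by positivity) (by
    rw [div_le_div_iff₀ hN two_pos]
    nlinarith [Real.pi_pos])
  have h7 : 2 / Real.pi * (Real.pi * |(rp x : ℝ)| / N) = 2 * |(rp x : ℝ)| / N := by
    field_simp
  rw [h7] at h6
  have h8 : (1 : ℝ) / 4 ≤ 2 * |(rp x : ℝ)| / N := by
    rw [div_le_div_iff₀ (by norm_num) hN]
    linarith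
  have h9 : (1 : ℝ) / 4 ≤ Real.sin (Real.pi * |(rp x : ℝ)| / N) := h8.trans h6
  rw [abs_of_pos (by norm_num : (0 : ℝ) < 2)]
  nlinarith

end Pool.Agent.H56.Auto
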