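import Mathlib

set_option autoImplicit false
set_option linter.unusedSectionVars false

open Finset

namespace Pool.Agent.H56.Auto

variable {N : ℕ} [NeZero N]

/-- the integer representative of smallest absolute value -/
abbrev rp (x : ZMod N) : ℤ := x.valMinAbs

theorem rp_eq {x : ZMod N} {y : ℤ} (h : x = (y : ZMod N)) (h1 : -(N : ℤ) < y * 2)
    (h2 : y * 2 ≤ N) : rp x = y :=
  (ZMod.valMinAbs_spec x y).2 ⟨h, h1, h2⟩

theorem rp_cast (x : ZMod N) : ((rp x : ℤ) : ZMod N) = x := ZMod.coe_valMinAbs x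

theorem rp_add2 {x y : ZMod N} (hx : 8 * |rp x| < N) (hy : 8 * |rp y| < N) :
    rp (x + 2 * y) = rp x + 2 * rp y := by
  have h1 := neg_abs_le (rp x)
  have h2 := neg_abs_le (rp y)
  have h3 := le_abs_self (rp x)
  have h4 := le_abs_self (rp y)
  have h5 := abs_nonneg (rp x)
  have h6 := abs_nonneg (rp y)
  apply rp_eq
  · push_cast [rp_cast]
    rfl
  · linarith
  · linarith

theorem rp_sub2 {x y : ZMod N} (hx : 8 * |rp x| < N) (hy : 8 * |rp y| < N) :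
    rp (x - 2 * y) = rp x - 2 * rp y := by
  have h1 := neg_abs_le (rp x)
  have h2 := neg_abs_le (rp y)
  have h3 := le_abs_self (rp x)
  have h4 := le_abs_self (rp y)
  have h5 := abs_nonneg (rp x)
  have h6 := abs_nonneg (rp y)
  apply rp_eq
  · push_cast [rp_cast]
    rfl
  · linarith
  · linarith

/-- shears by two on the first coordinate -/
def Sp (ξ : ZMod N × ZMod N) : ZMod N × ZMod N := (ξ.1 + 2 * ξ.2, ξ.2)
def Sm (ξ : ZMod N × ZMod N) : ZMod N × ZMod N := (ξ.1 - 2 * ξ.2, ξ.2)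

theorem Sm_Sp (ξ : ZMod N × ZMod N) : Sm (Sp ξ) = ξ := by
  ext <;> simp [Sp, Sm]

theorem Sp_Sm (ξ : ZMod N × ZMod N) : Sp (Sm ξ) = ξ := by
  ext <;> simp [Sp, Sm]

theorem Sp_inj : Function.Injective (Sp (N := N)) := fun a b h => by
  rw [← Sm_Sp a, h, Sm_Sp]

theorem Sm_inj : Function.Injective (Sm (N := N)) := fun a b h => by
  rw [← Sp_Sm a, h, Sp_Sm]

/-- the three parts of the punctured dual group -/
def PP : Finset (ZMod N × ZMod N) := univ.filter fun ξ => |rp ξ.1| < |rp ξ.2|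
def QQ : Finset (ZMod N × ZMod N) := univ.filter fun ξ => |rp ξ.2| < |rp ξ.1|
def RR : Finset (ZMod N × ZMod N) := univ.filter fun ξ => |rp ξ.1| = |rp ξ.2| ∧ ξ ≠ 0
def BB : Finset (ZMod N × ZMod N) :=
  univ.filter fun ξ => 8 * |rp ξ.1| < N ∧ 8 * |rp ξ.2| < N

theorem image_le {μ : ZMod N × ZMod N → ℝ} (hμ : ∀ ξ, 0 ≤ μ ξ)
    {Y Z : Finset (ZMod N × ZMod N)} {S : ZMod N × ZMod N → ZMod N × ZMod N}
    (hS : Function.Injective S) (h : ∀ ξ ∈ Y, S ξ ∈ Z) :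
    ∑ ξ ∈ Y, μ (S ξ) ≤ ∑ ξ ∈ Z, μ ξ := by
  classical
  rw [← Finset.sum_image (f := μ) (g := S) (s := Y) (fun a _ b _ hab => hS hab)]
  apply Finset.sum_le_sum_of_subset_of_nonneg
  · intro η hη
    obtain ⟨ξ, hξ, rfl⟩ := Finset.mem_image.1 hη
    exact h ξ hξ
  · intro ξ _ _
    exact hμ ξ

theorem two_le {μ : ZMod N × ZMod N → ℝ} (hμ : ∀ ξ, 0 ≤ μ ξ) :
    ∑ ξ ∈ PP ∩ BB, μ (Sp ξ) + ∑ ξ ∈ PP ∩ BB, μ (Sm ξ) ≤ ∑ ξ ∈ QQ (N := N), μ ξ := by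
  classical
  have hp : ∀ ξ ∈ PP ∩ BB (N := N), rp ξ.2 ≠ 0 ∧ |rp ξ.1| < |rp ξ.2| ∧
      rp (Sp ξ).1 = rp ξ.1 + 2 * rp ξ.2 ∧ rp (Sm ξ).1 = rp ξ.1 - 2 * rp ξ.2 := by
    intro ξ hξ
    simp only [PP, BB, mem_inter, mem_filter, mem_univ, true_and] at hξ
    obtain ⟨h1, h2, h3⟩ := hξ
    refine ⟨?_, h1, ?_, ?_⟩
    · intro h0
      rw [h0] at h1
      have := abs_nonneg (rp ξ.1)
      simp at h1
      linarith
    · exact rp_add2 h2 h3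
    · exact rp_sub2 h2 h3
  rw [← Finset.sum_image (f := μ) (g := Sp) (s := PP ∩ BB) (fun a _ b _ hab => Sp_inj hab),
    ← Finset.sum_image (f := μ) (g := Sm) (s := PP ∩ BB) (fun a _ b _ hab => Sm_inj hab),
    ← Finset.sum_union]
  · apply Finset.sum_le_sum_of_subset_of_nonneg
    · intro η hη
      rcases Finset.mem_union.1 hη with h | h
      · obtain ⟨ξ, hξ, rfl⟩ := Finset.mem_image.1 h
        obtain ⟨h0, h1, h2, h3⟩ := hp ξ hξ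
        simp only [QQ, mem_filter, mem_univ, true_and]
        rw [h2]
        show |rp ξ.2| < |rp ξ.1 + 2 * rp ξ.2|
        rcases abs_cases (rp ξ.1) with h4 | h4 <;> rcases abs_cases (rp ξ.2) with h5 | h5 <;>
          rcases abs_cases (rp ξ.1 + 2 * rp ξ.2) with h6 | h6 <;> omega
      · obtain ⟨ξ, hξ, rfl⟩ := Finset.mem_image.1 h
        obtain ⟨h0, h1, h2, h3⟩ := hp ξ hξ
        simp only [QQ, mem_filter, mem_univ, true_and]
        rw [h3]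
        show |rp ξ.2| < |rp ξ.1 - 2 * rp ξ.2|
        rcases abs_cases (rp ξ.1) with h4 | h4 <;> rcases abs_cases (rp ξ.2) with h5 | h5 <;>
          rcases abs_cases (rp ξ.1 - 2 * rp ξ.2) with h6 | h6 <;> omega
    · intro ξ _ _
      exact hμ ξ
  · rw [Finset.disjoint_left]
    intro η h1 h2
    obtain ⟨ξ, hξ, hξe⟩ := Finset.mem_image.1 h1
    obtain ⟨ζ, hζ, hζe⟩ := Finset.mem_image.1 h2
    obtain ⟨h0, h3, h4, -⟩ := hp ξ hξ
    obtain ⟨h5, h6, -, h7⟩ := hp ζ hζ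
    have e2 : ξ.2 = ζ.2 := by
      have : (Sp ξ).2 = (Sm ζ).2 := by rw [hξe, hζe]
      exact this
    have e1 : rp ξ.1 + 2 * rp ξ.2 = rp ζ.1 - 2 * rp ζ.2 := by
      rw [← h4, ← h7, hξe, hζe]
    rw [← e2] at e1 h6
    rcases abs_cases (rp ξ.1) with h8 | h8 <;> rcases abs_cases (rp ξ.2) with h9 | h9 <;>
      rcases abs_cases (rp ζ.1) with h10 | h10 <;> omega

theorem outside_le {μ : ZMod N × ZMod N → ℝ} (hμ : ∀ ξ, 0 ≤ μ ξ) {b : ℝ}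
    (h1 : ∑ ξ ∈ univ.filter (fun ξ : ZMod N × ZMod N => (N : ℤ) ≤ 8 * |rp ξ.1|), μ ξ ≤ b)
    (h2 : ∑ ξ ∈ univ.filter (fun ξ : ZMod N × ZMod N => (N : ℤ) ≤ 8 * |rp ξ.2|), μ ξ ≤ b)
    (Y : Finset (ZMod N × ZMod N)) :
    ∑ ξ ∈ Y, μ ξ ≤ ∑ ξ ∈ Y ∩ BB, μ ξ + 2 * b := by
  classical
  have h3 : ∑ ξ ∈ Y \ BB, μ ξ ≤ 2 * b := by
    calc ∑ ξ ∈ Y \ BB, μ ξ ≤ ∑ ξ ∈ (univ.filter (fun ξ : ZMod N × ZMod N => (N : ℤ) ≤ 8 * |rp ξ.1|))
          ∪ (univ.filter (fun ξ : ZMod N × ZMod N => (N : ℤ) ≤ 8 * |rp ξ.2|)), μ ξ := by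
          apply Finset.sum_le_sum_of_subset_of_nonneg
          · intro ξ hξ
            simp only [BB, mem_sdiff, mem_filter, mem_univ, true_and, mem_union] at hξ ⊢
            by_contra hc
            push Not at hc
            exact hξ.2 hc
          · intro ξ _ _
            exact hμ ξ
      _ ≤ _ := Finset.sum_union_inter.symm.trans_ge (by
          have := Finset.sum_nonneg (s := (univ.filter (fun ξ : ZMod N × ZMod N =>
            (N : ℤ) ≤ 8 * |rp ξ.1|)) ∩ (univ.filter (fun ξ : ZMod N × ZMod N =>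
            (N : ℤ) ≤ 8 * |rp ξ.2|))) (f := μ) (fun ξ _ => hμ ξ)
          linarith) |>.trans (by linarith)
  have h4 : ∑ ξ ∈ Y, μ ξ = ∑ ξ ∈ Y ∩ BB, μ ξ + ∑ ξ ∈ Y \ BB, μ ξ := by
    rw [← Finset.sum_union (Finset.disjoint_left.2 fun ξ h5 h6 =>
      (Finset.mem_sdiff.1 h6).2 (Finset.mem_inter.1 h5).2)]
    congr 1
    ext ξ
    simp only [mem_union, mem_inter, mem_sdiff]
    tauto
  linarith

theorem half {μ : ZMod N × ZMod N → ℝ} (hμ : ∀ ξ, 0 ≤ μ ξ) {b κ : ℝ}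
    (h1 : ∑ ξ ∈ univ.filter (fun ξ : ZMod N × ZMod N => (N : ℤ) ≤ 8 * |rp ξ.1|), μ ξ ≤ b)
    (h2 : ∑ ξ ∈ univ.filter (fun ξ : ZMod N × ZMod N => (N : ℤ) ≤ 8 * |rp ξ.2|), μ ξ ≤ b)
    (hp : ∀ Y : Finset (ZMod N × ZMod N), ∑ ξ ∈ Y, μ ξ ≤ ∑ ξ ∈ Y, μ (Sp ξ) + κ)
    (hm : ∀ Y : Finset (ZMod N × ZMod N), ∑ ξ ∈ Y, μ ξ ≤ ∑ ξ ∈ Y, μ (Sm ξ) + κ) :
    2 * ∑ ξ ∈ PP, μ ξ ≤ ∑ ξ ∈ QQ, μ ξ + 2 * κ + 4 * b ∧
    ∑ ξ ∈ RR, μ ξ ≤ 2 * ∑ ξ ∈ QQ, μ ξ + 2 * κ + 2 * b := by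
  classical
  constructor
  · have e1 := outside_le hμ h1 h2 PP
    have e2 := hp (PP ∩ BB)
    have e3 := hm (PP ∩ BB)
    have e4 := two_le (N := N) hμ
    linarith
  · have e1 := outside_le hμ h1 h2 RR
    set R1 := (RR ∩ BB (N := N)).filter fun ξ => rp ξ.1 = rp ξ.2 with hR1
    set R2 := (RR ∩ BB (N := N)).filter fun ξ => ¬ rp ξ.1 = rp ξ.2 with hR2
    have e2 : ∑ ξ ∈ RR ∩ BB, μ ξ = ∑ ξ ∈ R1, μ ξ + ∑ ξ ∈ R2, μ ξ :=
      (Finset.sum_filter_add_sum_filter_not _ _ _).symm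
    have hne : ∀ ξ ∈ RR ∩ BB (N := N), rp ξ.2 ≠ 0 := by
      intro ξ hξ h0
      simp only [RR, BB, mem_inter, mem_filter, mem_univ, true_and] at hξ
      obtain ⟨⟨h5, h6⟩, -⟩ := hξ
      apply h6
      rw [h0, abs_zero, abs_eq_zero] at h5
      ext
      · rw [← rp_cast ξ.1, h5]; simp
      · rw [← rp_cast ξ.2, h0]; simp
    have e3 : ∑ ξ ∈ R1, μ (Sp ξ) ≤ ∑ ξ ∈ QQ, μ ξ := by
      apply image_le hμ Sp_inj
      intro ξ hξ
      obtain ⟨h3, h4⟩ := Finset.mem_filter.1 hξ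
      have h5 := hne ξ h3
      simp only [RR, BB, mem_inter, mem_filter, mem_univ, true_and] at h3
      simp only [QQ, mem_filter, mem_univ, true_and]
      have h6 : rp (Sp ξ).1 = rp ξ.1 + 2 * rp ξ.2 := rp_add2 h3.2.1 h3.2.2
      rw [h6, h4]
      show |rp ξ.2| < |rp ξ.2 + 2 * rp ξ.2|
      rcases abs_cases (rp ξ.2) with h7 | h7 <;>
        rcases abs_cases (rp ξ.2 + 2 * rp ξ.2) with h8 | h8 <;> omega
    have e4 : ∑ ξ ∈ R2, μ (Sm ξ) ≤ ∑ ξ ∈ QQ, μ ξ := by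
      apply image_le hμ Sm_inj
      intro ξ hξ
      obtain ⟨h3, h4⟩ := Finset.mem_filter.1 hξ
      have h5 := hne ξ h3
      simp only [RR, BB, mem_inter, mem_filter, mem_univ, true_and] at h3
      simp only [QQ, mem_filter, mem_univ, true_and]
      have h6 : rp (Sm ξ).1 = rp ξ.1 - 2 * rp ξ.2 := rp_sub2 h3.2.1 h3.2.2
      have h9 : rp ξ.1 = - rp ξ.2 := by
        rcases abs_eq_abs.1 h3.1.1 with h | h
        · exact absurd h h4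
        · exact h
      rw [h6, h9]
      show |rp ξ.2| < |- rp ξ.2 - 2 * rp ξ.2|
      rcases abs_cases (rp ξ.2) with h7 | h7 <;>
        rcases abs_cases (-rp ξ.2 - 2 * rp ξ.2) with h8 | h8 <;> omega
    have e5 := hp R1
    have e6 := hm R2
    linarith

/-- ping-pong: an almost invariant measure without mass at zero is small -/
theorem ping {μ : ZMod N × ZMod N → ℝ} (hμ : ∀ ξ, 0 ≤ μ ξ) (h0 : μ 0 = 0) {b κ : ℝ}
    (h1 : ∑ ξ ∈ univ.filter (fun ξ : ZMod N × ZMod N => (N : ℤ) ≤ 8 * |rp ξ.1|), μ ξ ≤ b)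
    (h2 : ∑ ξ ∈ univ.filter (fun ξ : ZMod N × ZMod N => (N : ℤ) ≤ 8 * |rp ξ.2|), μ ξ ≤ b)
    (hp : ∀ Y : Finset (ZMod N × ZMod N), ∑ ξ ∈ Y, μ ξ ≤ ∑ ξ ∈ Y, μ (Sp ξ) + κ)
    (hm : ∀ Y : Finset (ZMod N × ZMod N), ∑ ξ ∈ Y, μ ξ ≤ ∑ ξ ∈ Y, μ (Sm ξ) + κ)
    (hp' : ∀ Y : Finset (ZMod N × ZMod N), ∑ ξ ∈ Y, μ ξ ≤ ∑ ξ ∈ Y, μ (Sp ξ.swap).swap + κ)
    (hm' : ∀ Y : Finset (ZMod N × ZMod N), ∑ ξ ∈ Y, μ ξ ≤ ∑ ξ ∈ Y, μ (Sm ξ.swap).swap + κ) :
    ∑ ξ, μ ξ ≤ 14 * κ + 26 * b := by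
  classical
  have a1 := half hμ h1 h2 hp hm
  have sw : ∀ (Y : Finset (ZMod N × ZMod N)) (g : ZMod N × ZMod N → ℝ),
      ∑ ξ ∈ Y, g ξ.swap = ∑ ξ ∈ Y.image Prod.swap, g ξ := by
    intro Y g
    rw [Finset.sum_image (fun a _ b _ hab => Prod.swap_injective hab)]
  have im : ∀ (p : ZMod N × ZMod N → Prop) [DecidablePred p],
      (univ.filter p).image Prod.swap = univ.filter (fun ξ => p ξ.swap) := by
    intro p _
    ext ξ
    simp only [mem_image, mem_filter, mem_univ, true_and]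
    constructor
    · rintro ⟨ζ, h, rfl⟩
      simpa using h
    · intro h
      exact ⟨ξ.swap, h, by simp⟩
  have a2 := half (μ := fun ξ => μ ξ.swap) (b := b) (κ := κ) (fun ξ => hμ _)
    (by rw [sw, im]; simpa using h2) (by rw [sw, im]; simpa using h1)
    (fun Y => by
      have := hp' (Y.image Prod.swap)
      rw [← sw, ← sw Y (fun ξ => μ (Sp ξ.swap).swap)] at this
      simpa using this)
    (fun Y => by
      have := hm' (Y.image Prod.swap)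
      rw [← sw, ← sw Y (fun ξ => μ (Sm ξ.swap).swap)] at this
      simpa using this)
  have b1 : ∑ ξ ∈ PP (N := N), μ ξ.swap = ∑ ξ ∈ QQ, μ ξ := by
    rw [sw]; unfold PP QQ; rw [im]; rfl
  have b2 : ∑ ξ ∈ QQ (N := N), μ ξ.swap = ∑ ξ ∈ PP, μ ξ := by
    rw [sw]; unfold PP QQ; rw [im]; rfl
  rw [b1, b2] at a2
  have tot : ∑ ξ, μ ξ = ∑ ξ ∈ PP, μ ξ + ∑ ξ ∈ QQ, μ ξ + ∑ ξ ∈ RR, μ ξ := by
    have d1 : Disjoint (PP (N := N)) QQ := by
      rw [Finset.disjoint_left]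
      intro ξ h3 h4
      simp only [PP, QQ, mem_filter, mem_univ, true_and] at h3 h4
      exact lt_asymm h3 h4
    have d2 : Disjoint (PP ∪ QQ) (RR (N := N)) := by
      rw [Finset.disjoint_left]
      intro ξ h3 h4
      simp only [PP, QQ, RR, mem_union, mem_filter, mem_univ, true_and] at h3 h4
      rcases h3 with h | h
      · exact absurd h4.1 h.ne
      · exact absurd h4.1 h.ne'
    rw [← Finset.sum_union d1, ← Finset.sum_union d2]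
    symm
    apply Finset.sum_subset (Finset.subset_univ _)
    intro ξ _ h3
    simp only [PP, QQ, RR, mem_union, mem_filter, mem_univ, true_and, not_or, not_lt,
      not_and, not_not] at h3
    have : ξ = 0 := h3.2 (le_antisymm h3.1.2 h3.1.1)
    rw [this, h0]
  obtain ⟨a1, a3⟩ := a1
  obtain ⟨a2, -⟩ := a2
  have hP : 0 ≤ ∑ ξ ∈ PP (N := N), μ ξ := Finset.sum_nonneg fun ξ _ => hμ ξ
  linarith

end Pool.Agent.H56.Auto
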